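import Pool.Agent.Helper423.PW.Defs

set_option autoImplicit false

namespace PW
variable {N : ℕ}


theorem J01_cyc_fst {α : Type} (S : List α) : (cyc S).map Prod.fst = S := by
  unfold cyc
  rw [List.map_fst_zip]
  simp

end PW
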