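import Pool.Agent.Helper423.PW.Defs

set_option autoImplicit false

namespace PW
variable {N : ℕ}


theorem lin_append_aux (l1 : List (Z N)) (hl : l1 ≠ []) (y : Z N) (l2 : List (Z N)) (z : Z N) :
    lin (l1 ++ (y :: l2)) z = lin l1 y ++ lin (y :: l2) z := by
  cases l1 with
  | nil => exact absurd rfl hl
  | cons a l =>
    unfold lin
    have h1 : ((a :: l) ++ (y :: l2)).tail ++ [z] = (l ++ [y]) ++ (l2 ++ [z]) := by simp
    rw [h1, List.map_append]
    rw [List.zip_append (by simp)]
    simp

theorem lin_W_aux (S0 : List (Z N × List (Z N))) : ∀ (b c : Z N × List (Z N)),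
    lin (W (b :: S0)) c.1 =
      (List.zip (b :: S0) (S0 ++ [c])).flatMap (fun p => lin (p.1.1 :: p.1.2) p.2.1) := by
  induction S0 with
  | nil =>
    intro b c
    simp [W]
  | cons b' rest ih =>
    intro b c
    have hW : W (b :: b' :: rest) = (b.1 :: b.2) ++ (b'.1 :: (b'.2 ++ W rest)) := by
      simp [W]
    have hW' : (b'.1 :: (b'.2 ++ W rest)) = W (b' :: rest) := by
      simp [W]
    rw [hW, lin_append_aux _ (by simp), hW', ih b' c]
    simp

theorem J03_turns_W (S : List (Z N × List (Z N))) :
    turns (W S) = (cyc S).flatMap (fun p => lin (p.1.1 :: p.1.2) p.2.1) := by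
  cases S with
  | nil => simp [W, turns, cyc]
  | cons b rest =>
    have h1 : turns (W (b :: rest)) = lin (W (b :: rest)) b.1 := by
      simp [W, turns, lin]
    have h2 : cyc (b :: rest) = List.zip (b :: rest) (rest ++ [b]) := by
      simp [cyc]
    rw [h1, h2]
    exact lin_W_aux rest b b

end PW
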