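import Pool.Agent.Helper423.PW.Defs

set_option autoImplicit false

namespace PW
variable {N : ℕ}


theorem J04_turns_rot (L L' : List (Z N)) (h : L ~r L') : (turns L).Perm (turns L') := by
  obtain ⟨n, rfl⟩ := h
  have h1 : turns (L.rotate n) = (turns L).rotate n := by
    unfold turns
    rw [List.map_rotate, List.rotate_rotate, Nat.add_comm n 1, ← List.rotate_rotate]
    simp only [List.zip]
    rw [List.zipWith_rotate_distrib]
    rw [List.length_map, List.length_rotate]
  rw [h1]
  exact (List.rotate_perm (turns L) n).symm

end PW
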