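import Pool.Agent.Helper423.PW.Defs

set_option autoImplicit false

namespace PW
variable {N : ℕ}


theorem J05_conj_rot (L L' : List (Z N)) (h : L ~r L') :
    IsConj (FreeGroup.mk L) (FreeGroup.mk L') := by
  obtain ⟨n, rfl⟩ := h
  rw [List.rotate_eq_drop_append_take_mod]
  obtain ⟨k, hk⟩ : ∃ k, k = n % L.length := ⟨_, rfl⟩
  rw [← hk]
  have h1 : FreeGroup.mk L = FreeGroup.mk (L.take k) * FreeGroup.mk (L.drop k) := by
    rw [FreeGroup.mul_mk, List.take_append_drop]
  rw [h1, ← FreeGroup.mul_mk, isConj_iff]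
  exact ⟨(FreeGroup.mk (L.take k))⁻¹, by group⟩

end PW
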