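import Pool.Agent.Helper423.PW.Defs

set_option autoImplicit false

namespace PW
variable {N : ℕ}


theorem J06_aux (Lg : Finset (Fin N)) (l : List (Z N)) : ∀ x : Z N, x.1 ∉ Lg →
    ∃ (w : List (Z N)) (S : List (Z N × List (Z N))), x :: l = W ((x, w) :: S) ∧
      (∀ b ∈ (x, w) :: S, b.1.1 ∉ Lg) ∧ ∀ b ∈ (x, w) :: S, ∀ y ∈ b.2, y.1 ∈ Lg := by
  induction l with
  | nil =>
    intro x hx
    refine ⟨[], [], by simp [W], ?_, ?_⟩
    · intro b hb
      rw [List.mem_singleton] at hb
      subst hb
      exact hx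
    · intro b hb y hy
      rw [List.mem_singleton] at hb
      subst hb
      simp at hy
  | cons y l ih =>
    intro x hx
    by_cases hy : y.1 ∈ Lg
    · obtain ⟨w, S, h1, h2, h3⟩ := ih x hx
      refine ⟨y :: w, S, ?_, ?_, ?_⟩
      · have h4 : W ((x, w) :: S) = x :: (w ++ W S) := by simp [W]
        have h5 : W ((x, y :: w) :: S) = x :: y :: (w ++ W S) := by simp [W]
        rw [h4] at h1
        rw [h5]
        rw [List.cons.injEq] at h1
        rw [h1.2]
      · intro b hb
        rcases List.mem_cons.1 hb with rfl | hb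
        · exact hx
        · exact h2 b (List.mem_cons_of_mem _ hb)
      · intro b hb z hz
        rcases List.mem_cons.1 hb with rfl | hb
        · rcases List.mem_cons.1 hz with rfl | hz
          · exact hy
          · exact h3 (x, w) List.mem_cons_self z hz
        · exact h3 b (List.mem_cons_of_mem _ hb) z hz
    · obtain ⟨w, S, h1, h2, h3⟩ := ih y hy
      refine ⟨[], (y, w) :: S, ?_, ?_, ?_⟩
      · have h5 : W ((x, ([] : List (Z N))) :: (y, w) :: S) = x :: W ((y, w) :: S) := by simp [W]
        rw [h5, h1]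
      · intro b hb
        rcases List.mem_cons.1 hb with rfl | hb
        · exact hx
        · exact h2 b hb
      · intro b hb z hz
        rcases List.mem_cons.1 hb with rfl | hb
        · simp at hz
        · exact h3 b hb z hz

/-- every cyclic word containing a small letter is, up to rotation, a word of blocks -/
theorem J06_blocks (Lg : Finset (Fin N)) (L : List (Z N)) (h : ∃ x ∈ L, x.1 ∉ Lg) :
    ∃ S : List (Z N × List (Z N)), S ≠ [] ∧ L ~r W S ∧ (∀ b ∈ S, b.1.1 ∉ Lg) ∧
      ∀ b ∈ S, ∀ x ∈ b.2, x.1 ∈ Lg := by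
  obtain ⟨x, hx, hxL⟩ := h
  obtain ⟨s, t, rfl⟩ := List.append_of_mem hx
  obtain ⟨w, S, h1, h2, h3⟩ := J06_aux Lg (t ++ s) x hxL
  refine ⟨(x, w) :: S, by simp, ?_, h2, h3⟩
  refine ⟨s.length, ?_⟩
  rw [List.rotate_append_length_eq, ← h1, List.cons_append]

end PW

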