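import Pool.Agent.Helper423.PW.Defs
import Pool.Agent.Helper423.PW.P_J01_cyc_fst
import Pool.Agent.Helper423.PW.P_J03_turns_W

set_option autoImplicit false

namespace PW
variable {N : ℕ}


theorem J07_lin_cons (a b : Z N) (m : List (Z N)) (z : Z N) :
    lin (a :: b :: m) z = (inv a, b) :: lin (b :: m) z := by
  simp [lin]

theorem J07_lin_one (a z : Z N) : lin [a] z = [(inv a, z)] := by
  simp [lin]

theorem J07_red (m : List (Z N)) : ∀ (a z : Z N), (∀ t ∈ lin (a :: m) z, t.1 ≠ t.2) →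
    FreeGroup.IsReduced m := by
  induction m with
  | nil => intro a z _; exact List.IsChain.nil
  | cons b m ih =>
    intro a z h
    rw [J07_lin_cons] at h
    have h1 : ∀ t ∈ lin (b :: m) z, t.1 ≠ t.2 := fun t ht => h t (List.mem_cons_of_mem _ ht)
    have h2 := ih b z h1
    cases m with
    | nil => exact List.IsChain.singleton _
    | cons c m =>
      rw [J07_lin_cons] at h1
      have h3 : inv b ≠ c := h1 (inv b, c) List.mem_cons_self
      refine List.IsChain.cons_cons ?_ h2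
      intro h4
      by_contra h5
      apply h3
      unfold inv
      apply Prod.ext
      · exact h4
      · show (!b.2) = c.2
        cases hb : b.2 <;> cases hc : c.2 <;> simp_all

theorem J07_inv (Lg : Finset (Fin N)) (π : Z N → ℕ) (hl : Loops Lg π) (b : Z N)
    (hb : b.1 ∈ Lg) : π (inv b) = π b := by
  obtain ⟨i, c⟩ := b
  have h := hl i hb
  cases c
  · exact h
  · exact h.symm

theorem J07_path (Lg : Finset (Fin N)) (π : Z N → ℕ) (hl : Loops Lg π) (m : List (Z N)) :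
    ∀ (a z : Z N), (∀ x ∈ m, x.1 ∈ Lg) → (∀ t ∈ lin (a :: m) z, π t.1 = π t.2) →
    (∀ x ∈ m, π x = π (inv a)) ∧ π (inv a) = π z := by
  induction m with
  | nil =>
    intro a z _ h
    rw [J07_lin_one] at h
    refine ⟨fun x hx => absurd hx List.not_mem_nil, h (inv a, z) List.mem_cons_self⟩
  | cons b m ih =>
    intro a z hm h
    rw [J07_lin_cons] at h
    have h0 : π (inv a) = π b := h (inv a, b) List.mem_cons_self
    have hb := J07_inv Lg π hl b (hm b List.mem_cons_self)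
    obtain ⟨h1, h2⟩ := ih b z (fun x hx => hm x (List.mem_cons_of_mem _ hx))
      (fun t ht => h t (List.mem_cons_of_mem _ ht))
    constructor
    · intro x hx
      rcases List.mem_cons.1 hx with rfl | hx
      · exact h0.symm
      · rw [h1 x hx, hb, h0]
    · rw [h0, ← hb, h2]

/-- tight path lists give well formed blocks -/
theorem J07_BOK_of (Lg : Finset (Fin N)) (π : Z N → ℕ) (hl : Loops Lg π)
    (S : List (Z N × List (Z N))) (hne : S ≠ []) (h1 : ∀ b ∈ S, b.1.1 ∉ Lg)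
    (h2 : ∀ b ∈ S, ∀ x ∈ b.2, x.1 ∈ Lg) (ht : Tight (W S))
    (hp : ∀ t ∈ turns (W S), π t.1 = π t.2) : BOK Lg π S := by
  have hmem : ∀ b ∈ S, ∃ p ∈ cyc S, p.1 = b := by
    intro b hb
    rw [← J01_cyc_fst S] at hb
    exact List.mem_map.1 hb
  have hmem' : ∀ p ∈ cyc S, p.1 ∈ S := by
    intro p hp'
    have : p.1 ∈ (cyc S).map Prod.fst := List.mem_map.2 ⟨p, hp', rfl⟩
    rwa [J01_cyc_fst] at this
  have ht' : ∀ p ∈ cyc S, ∀ t ∈ lin (p.1.1 :: p.1.2) p.2.1, t.1 ≠ t.2 := by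
    intro p hp' t htl
    apply ht t
    rw [J03_turns_W]
    exact List.mem_flatMap.2 ⟨p, hp', htl⟩
  have hpi : ∀ p ∈ cyc S, ∀ t ∈ lin (p.1.1 :: p.1.2) p.2.1, π t.1 = π t.2 := by
    intro p hp' t htl
    apply hp t
    rw [J03_turns_W]
    exact List.mem_flatMap.2 ⟨p, hp', htl⟩
  have hpp : ∀ p ∈ cyc S, (∀ x ∈ p.1.2, π x = π (inv p.1.1)) ∧ π (inv p.1.1) = π p.2.1 := by
    intro p hp'
    exact J07_path Lg π hl p.1.2 p.1.1 p.2.1 (h2 p.1 (hmem' p hp')) (hpi p hp')
  refine ⟨hne, h1, ?_, ?_, ?_, ?_⟩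
  · intro b hb
    obtain ⟨p, hp', rfl⟩ := hmem b hb
    exact J07_red p.1.2 p.1.1 p.2.1 (ht' p hp')
  · intro b hb x hx
    refine ⟨h2 b hb x hx, ?_⟩
    obtain ⟨p, hp', rfl⟩ := hmem b hb
    exact (hpp p hp').1 x hx
  · intro p hp'
    exact (hpp p hp').2
  · intro p hp' hnil
    have h3 := ht' p hp'
    rw [hnil, J07_lin_one] at h3
    exact h3 (inv p.1.1, p.2.1) List.mem_cons_self

end PW
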