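import Pool.Agent.Helper423.PW.Defs
import Pool.Agent.Helper423.PW.P_J01_cyc_fst
import Pool.Agent.Helper423.PW.P_J02_cyc_snd
import Pool.Agent.Helper423.PW.P_J03_turns_W

set_option autoImplicit false

namespace PW
variable {N : ℕ}


theorem J08_tight_lin (l : List (Z N)) : ∀ (x z : Z N),
    List.IsChain (fun a b : Z N => a.1 = b.1 → a.2 = b.2) (x :: l) →
    (inv ((x :: l).getLast (List.cons_ne_nil _ _)) ≠ z) → ∀ t ∈ lin (x :: l) z, t.1 ≠ t.2 := by
  induction l with
  | nil =>
    intro x z _ hz t ht
    simp only [lin, List.map_cons, List.map_nil, List.tail_cons, List.nil_append,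
      List.zip_cons_cons, List.zip_nil_right, List.mem_singleton] at ht
    subst ht
    simpa using hz
  | cons y l ih =>
    intro x z hc hz t ht
    have hl : lin (x :: y :: l) z = (inv x, y) :: lin (y :: l) z := by
      simp [lin]
    rw [hl, List.mem_cons] at ht
    rw [List.isChain_cons_cons] at hc
    rcases ht with rfl | ht
    · intro he
      simp only at he
      have h1 : x.1 = y.1 := by rw [← he]; rfl
      have h2 := hc.1 h1
      rw [← he] at h2
      simp [inv] at h2
    · refine ih y z hc.2 ?_ t ht
      rw [List.getLast_cons (List.cons_ne_nil _ _)] at hz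
      exact hz

theorem J08_tight (Lg : Finset (Fin N)) (π : Z N → ℕ) (S : List (Z N × List (Z N)))
    (h : BOK Lg π S) : Tight (W S) := by
  intro t ht
  rw [J03_turns_W, List.mem_flatMap] at ht
  obtain ⟨p, hp, ht⟩ := ht
  have h1 : p.1 ∈ S := by
    have : p.1 ∈ (cyc S).map Prod.fst := List.mem_map_of_mem hp
    rwa [J01_cyc_fst] at this
  have h2 : p.2 ∈ S := by
    have : p.2 ∈ (cyc S).map Prod.snd := List.mem_map_of_mem hp
    rw [J02_cyc_snd] at this
    exact List.mem_rotate.mp this
  refine J08_tight_lin p.1.2 p.1.1 p.2.1 ?_ ?_ t ht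
  · cases hl : p.1.2 with
    | nil => exact List.isChain_singleton _
    | cons y l =>
      rw [List.isChain_cons_cons]
      constructor
      · intro he
        exfalso
        apply h.small _ h1
        rw [he]
        exact (h.large _ h1 y (by rw [hl]; exact List.mem_cons_self)).1
      · have hr := h.red _ h1
        rw [hl] at hr
        exact hr
  · by_cases hl : p.1.2 = []
    · have := h.turn p hp hl
      simpa [hl] using this
    · rw [List.getLast_cons hl]
      intro he
      apply h.small _ h2
      rw [← he]
      exact (h.large _ h1 _ (List.getLast_mem hl)).1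

end PW
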