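import Pool.Agent.Helper423.PW.Defs
import Pool.Agent.Helper423.PW.P_J01_cyc_fst
import Pool.Agent.Helper423.PW.P_J02_cyc_snd
import Pool.Agent.Helper423.PW.P_J03_turns_W

set_option autoImplicit false

namespace PW
variable {N : ℕ}


theorem J09_path (Lg : Finset (Fin N)) (π : Z N → ℕ) (hl : Loops Lg π)
    (S : List (Z N × List (Z N))) (h : BOK Lg π S) : ∀ t ∈ turns (W S), π t.1 = π t.2 := by
  intro t ht
  rw [J03_turns_W, List.mem_flatMap] at ht
  obtain ⟨⟨a, b⟩, hp, ht⟩ := ht
  have haS : a ∈ S := (List.of_mem_zip hp).1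
  have hpi : ∀ x : Z N, x.1 ∈ Lg → π (inv x) = π x := by
    rintro ⟨i, c⟩ hx
    have h1 := hl i hx
    cases c
    · exact h1
    · exact h1.symm
  have hz : π (inv a.1) = π b.1 := h.cpath (a, b) hp
  have hlarge := h.large a haS
  unfold lin at ht
  simp only [List.tail_cons] at ht
  obtain ⟨t1, t2⟩ := t
  obtain ⟨h1, h2⟩ := List.of_mem_zip ht
  have e1 : π t1 = π (inv a.1) := by
    rw [List.mem_map] at h1
    obtain ⟨x, hx, rfl⟩ := h1
    rcases List.mem_cons.1 hx with rfl | hx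
    · rfl
    · obtain ⟨h3, h4⟩ := hlarge x hx
      rw [hpi x h3, h4]
  have e2 : π t2 = π (inv a.1) := by
    rcases List.mem_append.1 h2 with h2 | h2
    · exact (hlarge t2 h2).2
    · rw [List.mem_singleton.1 h2, hz]
  show π t1 = π t2
  rw [e1, e2]

end PW
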