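import Pool.Agent.Helper423.PW.Defs

set_option autoImplicit false

namespace PW
variable {N : ℕ}


theorem J10_R (x z : Z N) : inv x ≠ z ↔ (x.1 = z.1 → x.2 = z.2) := by
  obtain ⟨a, b⟩ := x
  obtain ⟨c, d⟩ := z
  simp only [inv, ne_eq, Prod.mk.injEq, not_and]
  constructor
  · intro h h1
    have h2 := h h1
    cases b <;> cases d <;> simp_all
  · intro h h1 h2
    have h3 := h h1
    cases b <;> cases d <;> simp_all

theorem J10_aux (l : List (Z N)) : ∀ (x z : Z N),
    (∀ t ∈ List.zip ((x :: l).map inv) (l ++ [z]), t.1 ≠ t.2) ↔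
      (FreeGroup.IsReduced (x :: l) ∧ ∀ a ∈ (x :: l).getLast?, (a.1 = z.1 → a.2 = z.2)) := by
  induction l with
  | nil =>
    intro x z
    have := J10_R x z
    simpa using this
  | cons y l ih =>
    intro x z
    have h1 := ih y z
    have h2 := J10_R x y
    rw [FreeGroup.isReduced_cons_cons, List.getLast?_cons_cons, and_assoc, ← h1, ← h2]
    simp only [List.map_cons, List.cons_append, List.zip_cons_cons, List.mem_cons,
      forall_eq_or_imp]

theorem J10_tight_iff (L : List (Z N)) : Tight L ↔ FreeGroup.IsCyclicallyReduced L := by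
  rcases L with _ | ⟨x, l⟩
  · simp [Tight, turns]
  · unfold Tight turns
    rw [List.rotate_cons_succ, List.rotate_zero, J10_aux, FreeGroup.isCyclicallyReduced_iff]
    simp only [List.head?_cons, Option.mem_def, Option.some.injEq, forall_eq']

end PW
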