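import Pool.Agent.Helper423.PW.Defs
import Pool.Agent.Helper423.PW.P_J10_tight_iff

set_option autoImplicit false

namespace PW
variable {N : ℕ}


theorem J11_norm_pow (L : List (Z N)) (h : Tight L) (n : ℕ) :
    ((FreeGroup.mk L) ^ n).norm = n * L.length := by
  have h1 : FreeGroup.IsCyclicallyReduced L := (J10_tight_iff L).1 h
  have h2 : FreeGroup.IsReduced (List.replicate n L).flatten := (h1.flatten_replicate n).isReduced
  have h3 : (FreeGroup.mk L) ^ n = FreeGroup.mk (List.replicate n L).flatten := by
    induction n with
    | zero => rfl
    | succ n ih =>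
      have h4 : FreeGroup.IsReduced (List.replicate n L).flatten := (h1.flatten_replicate n).isReduced
      rw [pow_succ', ih h4, FreeGroup.mul_mk, List.replicate_succ, List.flatten_cons]
  rw [h3]
  show (FreeGroup.toWord _).length = _
  rw [FreeGroup.toWord_mk, h2.reduce_eq]
  simp

end PW
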