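import Pool.Agent.Helper423.PW.Defs
import Pool.Agent.Helper423.PW.P_J11_norm_pow

set_option autoImplicit false

namespace PW
variable {N : ℕ}


theorem J12_len_eq_aux (L L' : List (Z N)) (h : Tight L) (h' : Tight L')
    (hc : IsConj (FreeGroup.mk L) (FreeGroup.mk L')) : L'.length ≤ L.length := by
  obtain ⟨c, hc⟩ := isConj_iff.1 hc
  by_contra hlt
  push Not at hlt
  have key : ∀ n : ℕ, n * L'.length ≤ n * L.length + 2 * c.norm := by
    intro n
    rw [← J11_norm_pow L' h' n, ← J11_norm_pow L h n, ← hc, conj_pow]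
    have h1 := FreeGroup.norm_mul_le (c * (FreeGroup.mk L) ^ n) c⁻¹
    have h2 := FreeGroup.norm_mul_le c ((FreeGroup.mk L) ^ n)
    rw [FreeGroup.norm_inv_eq] at h1
    omega
  have h1 := key (2 * c.norm + 1)
  have h2 : (2 * c.norm + 1) * (L.length + 1) ≤ (2 * c.norm + 1) * L'.length :=
    Nat.mul_le_mul_left _ hlt
  have h3 : (2 * c.norm + 1) * (L.length + 1) = (2 * c.norm + 1) * L.length + (2 * c.norm + 1) := by
    ring
  omega

theorem J12_len_eq (L L' : List (Z N)) (h : Tight L) (h' : Tight L')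
    (hc : IsConj (FreeGroup.mk L) (FreeGroup.mk L')) : L.length = L'.length :=
  le_antisymm (J12_len_eq_aux L' L h' h hc.symm) (J12_len_eq_aux L L' h h' hc)

end PW
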