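import Pool.Agent.Helper423.PW.Defs

set_option autoImplicit false

namespace PW
variable {N : ℕ}


theorem J13_sig_lt (h : Z N → FN N) (x : Z N) : sig h (lt x) = h x * lt x * (h (inv x))⁻¹ := by
  have hof : ∀ i : Fin N, lt (i, true) = FreeGroup.of i := fun i => rfl
  have hinv : ∀ i : Fin N, lt (i, false) = (FreeGroup.of i)⁻¹ := fun i => by
    rw [FreeGroup.of, FreeGroup.inv_mk]
    rfl
  have hs : ∀ i : Fin N, sig h (FreeGroup.of i) =
      h (i, true) * FreeGroup.of i * (h (i, false))⁻¹ := fun i => by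
    unfold sig
    rw [FreeGroup.lift_apply_of]
  obtain ⟨i, b⟩ := x
  cases b with
  | true =>
    rw [hof, hs]
    rfl
  | false =>
    rw [hinv, map_inv, hs]
    show _ = h (i, false) * (FreeGroup.of i)⁻¹ * (h (i, true))⁻¹
    group

end PW
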