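import Pool.Agent.Helper423.PW.Defs
import Pool.Agent.Helper423.PW.P_J13_sig_lt

set_option autoImplicit false

namespace PW
variable {N : ℕ}


theorem J14_sig_fix (Lg : Finset (Fin N)) (π : Z N → ℕ) (h : Z N → FN N) (hA : Adm Lg π h)
    (g : FN N) (hg : ∀ x ∈ g.toWord, x.1 ∈ Lg) : sig h g = g := by
  have key : ∀ l : List (Z N), (∀ x ∈ l, x.1 ∈ Lg) →
      sig h (FreeGroup.mk l) = FreeGroup.mk l := by
    intro l
    induction l with
    | nil =>
      intro _
      have h0 : (FreeGroup.mk ([] : List (Z N)) : FN N) = 1 := rfl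
      rw [h0, map_one]
    | cons x l ih =>
      intro hl
      have h1 : (FreeGroup.mk (x :: l) : FN N) = lt x * FreeGroup.mk l := by
        unfold lt
        rw [FreeGroup.mul_mk]
        rfl
      have hx : x.1 ∈ Lg := hl x (by simp)
      have hh : h x = 1 := (hA x).1 hx
      have hi : h (inv x) = 1 := (hA (inv x)).1 (by simpa [inv] using hx)
      have h2 : sig h (lt x) = lt x := by
        rw [J13_sig_lt, hh, hi]; simp
      rw [h1, map_mul, h2, ih (fun y hy => hl y (by simp [hy]))]
  have h3 := key g.toWord hg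
  rwa [FreeGroup.mk_toWord] at h3

end PW
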