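import Pool.Agent.Helper423.PW.Defs

set_option autoImplicit false

namespace PW
variable {N : ℕ}


theorem J15_adm_mul (Lg : Finset (Fin N)) (π : Z N → ℕ) (h h' : Z N → FN N) (hA : Adm Lg π h)
    (hA' : Adm Lg π h') : Adm Lg π (fun α => h α * h' α) := by
  intro α
  obtain ⟨h1, h2⟩ := hA α
  obtain ⟨h3, h4⟩ := hA' α
  refine ⟨fun hα => ?_, fun x hx => ?_⟩
  · show h α * h' α = 1
    rw [h1 hα, h3 hα, mul_one]
  · have hsub := FreeGroup.toWord_mul_sublist (h α) (h' α)
    have hx' := hsub.subset hx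
    rw [List.mem_append] at hx'
    rcases hx' with hx' | hx'
    · exact h2 x hx'
    · exact h4 x hx'

end PW
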