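import Pool.Agent.Helper423.PW.Defs

set_option autoImplicit false

namespace PW
variable {N : ℕ}


theorem J16_adm_inv (Lg : Finset (Fin N)) (π : Z N → ℕ) (hl : Loops Lg π) (h : Z N → FN N)
    (hA : Adm Lg π h) : Adm Lg π (fun α => (h α)⁻¹) := by
  intro α
  refine ⟨fun hα => by simp [(hA α).1 hα], ?_⟩
  intro x hx
  have hx' : x ∈ FreeGroup.invRev (h α).toWord := by
    rw [← FreeGroup.toWord_inv]
    exact hx
  unfold FreeGroup.invRev at hx'
  rw [List.mem_reverse, List.mem_map] at hx'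
  obtain ⟨y, hy, rfl⟩ := hx'
  obtain ⟨h1, h2⟩ := (hA α).2 y hy
  refine ⟨h1, ?_⟩
  rw [← h2]
  obtain ⟨i, b⟩ := y
  have h3 := hl i h1
  cases b
  · exact h3
  · exact h3.symm

end PW
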