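import Pool.Agent.Helper423.PW.Defs
import Pool.Agent.Helper423.PW.P_J14_sig_fix

set_option autoImplicit false

namespace PW
variable {N : ℕ}


theorem J17_sig_comp (Lg : Finset (Fin N)) (π : Z N → ℕ) (h h' : Z N → FN N) (hA : Adm Lg π h)
    (hA' : Adm Lg π h') (g : FN N) : sig h (sig h' g) = sig (fun α => h' α * h α) g := by
  have hfix : ∀ α, sig h (h' α) = h' α := fun α =>
    J14_sig_fix Lg π h hA (h' α) (fun x hx => ((hA' α).2 x hx).1)
  have hof : ∀ (k : Z N → FN N) (i : Fin N), sig k (FreeGroup.of i) =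
      k (i, true) * FreeGroup.of i * (k (i, false))⁻¹ := by
    intro k i
    unfold sig
    rw [FreeGroup.lift_apply_of]
  have hcomp : (sig h).comp (sig h') = sig (fun α => h' α * h α) := by
    apply FreeGroup.ext_hom
    intro i
    rw [MonoidHom.comp_apply, hof, hof, map_mul, map_mul, map_inv, hfix, hfix, hof, mul_inv_rev]
    simp only [mul_assoc]
  exact DFunLike.congr_fun hcomp g

end PW
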