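import Pool.Agent.Helper423.PW.Defs

set_option autoImplicit false

namespace PW
variable {N : ℕ}


theorem J18_sig_one (g : FN N) : sig (fun _ => 1) g = g := by
  have h : sig (fun _ : Z N => (1 : FN N)) = MonoidHom.id (FN N) := by
    apply FreeGroup.ext_hom
    intro i
    simp [sig]
  rw [h, MonoidHom.id_apply]

end PW
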