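import Pool.Agent.Helper423.PW.Defs
import Pool.Agent.Helper423.PW.P_J16_adm_inv
import Pool.Agent.Helper423.PW.P_J17_sig_comp
import Pool.Agent.Helper423.PW.P_J18_sig_one

set_option autoImplicit false

namespace PW
variable {N : ℕ}


theorem J19_sig_equiv (Lg : Finset (Fin N)) (π : Z N → ℕ) (hl : Loops Lg π) (h : Z N → FN N)
    (hA : Adm Lg π h) : ∃ φ : FN N ≃* FN N, ∀ g, φ g = sig h g := by
  have hA' := J16_adm_inv Lg π hl h hA
  refine ⟨{ toFun := sig h
            invFun := sig (fun α => (h α)⁻¹)
            left_inv := ?_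
            right_inv := ?_
            map_mul' := map_mul (sig h) }, fun g => rfl⟩
  · intro g
    rw [J17_sig_comp Lg π (fun α => (h α)⁻¹) h hA' hA g]
    simp only [mul_inv_cancel]
    exact J18_sig_one g
  · intro g
    rw [J17_sig_comp Lg π h (fun α => (h α)⁻¹) hA hA' g]
    simp only [inv_mul_cancel]
    exact J18_sig_one g

end PW
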