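import Pool.Agent.Helper423.PW.Defs
import Pool.Agent.Helper423.PW.P_J19_sig_equiv

set_option autoImplicit false

namespace PW
variable {N : ℕ}


theorem J20_orb (Lg : Finset (Fin N)) (π : Z N → ℕ) (hl : Loops Lg π) (h : Z N → FN N)
    (hA : Adm Lg π h) (u : FN N) (L L' : List (Z N)) (hu : Orb u L)
    (hc : IsConj (FreeGroup.mk L') (sig h (FreeGroup.mk L))) : Orb u L' := by
  obtain ⟨φ, hφ⟩ := hu
  obtain ⟨ψ, hψ⟩ := J19_sig_equiv Lg π hl h hA
  refine ⟨φ.trans ψ, ?_⟩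
  have h1 : IsConj (sig h (φ u)) (sig h (FreeGroup.mk L)) := MonoidHom.map_isConj (sig h) hφ
  have h2 : (φ.trans ψ) u = sig h (φ u) := hψ (φ u)
  rw [h2]
  exact h1.trans hc.symm

end PW
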