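import Pool.Agent.Helper423.PW.Defs
import Pool.Agent.Helper423.PW.P_J01_cyc_fst

set_option autoImplicit false

namespace PW
variable {N : ℕ}


theorem J22_act_length (h : Z N → FN N) (S : List (Z N × List (Z N))) :
    (W (act h S)).length = S.length + fS (strs S) h := by
  have hlen : (cyc S).length = S.length := by
    conv_rhs => rw [← J01_cyc_fst S]
    rw [List.length_map]
  have key : ∀ C : List ((Z N × List (Z N)) × (Z N × List (Z N))),
      (W (C.map (fun p => (p.1.1, ((h (inv p.1.1))⁻¹ * FreeGroup.mk p.1.2 * h p.2.1).toWord)))).length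
        = C.length + fS (C.map (fun p => (inv p.1.1, FreeGroup.mk p.1.2, p.2.1))) h := by
    intro C
    induction C with
    | nil => simp [W, fS]
    | cons p C ih =>
      have h1 : (W ((p :: C).map (fun p => (p.1.1,
          ((h (inv p.1.1))⁻¹ * FreeGroup.mk p.1.2 * h p.2.1).toWord)))).length =
          1 + ((h (inv p.1.1))⁻¹ * FreeGroup.mk p.1.2 * h p.2.1).toWord.length +
          (W (C.map (fun p => (p.1.1,
            ((h (inv p.1.1))⁻¹ * FreeGroup.mk p.1.2 * h p.2.1).toWord)))).length := by
        simp only [W, List.map_cons, List.flatMap_cons, List.length_append, List.length_cons]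
        omega
      have h2 : fS ((p :: C).map (fun p => (inv p.1.1, FreeGroup.mk p.1.2, p.2.1))) h =
          ((h (inv p.1.1))⁻¹ * FreeGroup.mk p.1.2 * h p.2.1).toWord.length +
          fS (C.map (fun p => (inv p.1.1, FreeGroup.mk p.1.2, p.2.1))) h := by
        simp only [fS, List.map_cons, List.sum_cons]
        rfl
      rw [h1, h2, ih, List.length_cons]
      omega
  rw [← hlen]
  exact key (cyc S)

end PW
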