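import Pool.Agent.Helper423.PW.Defs
import Pool.Agent.Helper423.PW.P_J13_sig_lt
import Pool.Agent.Helper423.PW.P_J14_sig_fix

set_option autoImplicit false

namespace PW
variable {N : ℕ}


theorem J23_act_conj_mkW (S : List (Z N × List (Z N))) :
    FreeGroup.mk (W S) = (S.map (fun b => lt b.1 * FreeGroup.mk b.2)).prod := by
  induction S with
  | nil => rfl
  | cons b S ih =>
    have e : W (b :: S) = [b.1] ++ (b.2 ++ W S) := by
      simp [W, List.flatMap_cons]
    rw [e, ← FreeGroup.mul_mk, ← FreeGroup.mul_mk, ih, List.map_cons, List.prod_cons, lt,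
      mul_assoc]

theorem J23_act_conj_lin {G α : Type} [Group G] (a c : α → G) (z : α) (l : List α) :
    ∀ b : α, ((List.zip (b :: l) (l ++ [z])).map (fun p => c p.1 * a p.2)).prod =
      (a b)⁻¹ * ((b :: l).map (fun x => a x * c x)).prod * a z := by
  induction l with
  | nil =>
    intro b
    simp
  | cons x l ih =>
    intro b
    have h1 := ih x
    have e : List.zip (b :: x :: l) (x :: l ++ [z]) = (b, x) :: List.zip (x :: l) (l ++ [z]) := rfl
    rw [e, List.map_cons, List.prod_cons, h1]
    simp only [List.map_cons, List.prod_cons]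
    group

theorem J23_act_conj (Lg : Finset (Fin N)) (π : Z N → ℕ) (h : Z N → FN N) (hA : Adm Lg π h)
    (S : List (Z N × List (Z N))) (hS : BOK Lg π S) :
    IsConj (FreeGroup.mk (W (act h S))) (sig h (FreeGroup.mk (W S))) := by
  let a : Z N × List (Z N) → FN N := fun b => h b.1
  let c : Z N × List (Z N) → FN N := fun b => lt b.1 * (h (inv b.1))⁻¹ * FreeGroup.mk b.2
  have e1 : sig h (FreeGroup.mk (W S)) = (S.map (fun b => a b * c b)).prod := by
    rw [J23_act_conj_mkW, map_list_prod, List.map_map]
    congr 1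
    refine List.map_congr_left fun b hb => ?_
    have h2 : sig h (FreeGroup.mk b.2) = FreeGroup.mk b.2 := by
      refine J14_sig_fix Lg π h hA _ fun x hx => ?_
      rw [FreeGroup.toWord_mk, (hS.red b hb).reduce_eq] at hx
      exact (hS.large b hb x hx).1
    simp only [Function.comp, map_mul, h2, J13_sig_lt, a, c]
    group
  have e2 : FreeGroup.mk (W (act h S)) = ((cyc S).map (fun p => c p.1 * a p.2)).prod := by
    rw [J23_act_conj_mkW, act, List.map_map]
    congr 1
    refine List.map_congr_left fun p _ => ?_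
    simp only [Function.comp, FreeGroup.mk_toWord, a, c]
    group
  obtain ⟨b, l, rfl⟩ := List.exists_cons_of_ne_nil hS.ne
  have e3 : cyc (b :: l) = List.zip (b :: l) (l ++ [b]) := by
    simp [cyc]
  rw [isConj_iff]
  refine ⟨a b, ?_⟩
  rw [e2, e3, J23_act_conj_lin a c b l b, e1]
  group

end PW
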