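import Pool.Agent.Helper423.PW.Defs
import Pool.Agent.Helper423.PW.P_J01_cyc_fst
import Pool.Agent.Helper423.PW.P_J02_cyc_snd

set_option autoImplicit false

namespace PW
variable {N : ℕ}


theorem J24h_cyc_act (h : Z N → FN N) (S : List (Z N × List (Z N)))
    (p : (Z N × List (Z N)) × (Z N × List (Z N))) (hp : p ∈ cyc (act h S)) :
    ∃ q ∈ cyc S, p.1.1 = q.1.1 ∧ p.2.1 = q.2.1 ∧
      p.1.2 = ((h (inv q.1.1))⁻¹ * FreeGroup.mk q.1.2 * h q.2.1).toWord := by
  unfold cyc at hp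
  obtain ⟨i, hi, rfl⟩ := List.mem_iff_getElem.1 hp
  have hlen : (act h S).length = S.length := by
    simp [act, cyc]
  have hlenc : (cyc S).length = S.length := by
    simp [cyc]
  have hi' : i < S.length := by
    simpa [hlen] using hi
  refine ⟨(cyc S)[i]'(by rw [hlenc]; exact hi'), List.getElem_mem _, ?_, ?_, ?_⟩
  · simp [act, List.getElem_zip]
  · simp [act, cyc, List.getElem_zip, List.getElem_rotate]
  · simp [act, List.getElem_zip]

theorem J24h_mem_mul (a b : FN N) (x : Z N) (hx : x ∈ (a * b).toWord) :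
    x ∈ a.toWord ∨ x ∈ b.toWord := by
  rw [FreeGroup.toWord_mul] at hx
  have h1 := (FreeGroup.Red.sublist (FreeGroup.reduce.red (L := a.toWord ++ b.toWord))).subset hx
  simpa using h1

theorem J24h_mem_inv (a : FN N) (x : Z N) (hx : x ∈ (a⁻¹).toWord) :
    inv x ∈ a.toWord := by
  rw [FreeGroup.toWord_inv] at hx
  unfold FreeGroup.invRev at hx
  simp only [List.mem_reverse, List.mem_map] at hx
  obtain ⟨y, hy, rfl⟩ := hx
  simpa [inv] using hy

theorem J24h_mem_mk (w : List (Z N)) (x : Z N) (hx : x ∈ (FreeGroup.mk w).toWord) :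
    x ∈ w := by
  rw [FreeGroup.toWord_mk] at hx
  exact (FreeGroup.Red.sublist (FreeGroup.reduce.red (L := w))).subset hx

theorem J24h_inv_pi (Lg : Finset (Fin N)) (π : Z N → ℕ) (hl : Loops Lg π) (x : Z N)
    (hx : x.1 ∈ Lg) : π (inv x) = π x := by
  obtain ⟨i, b⟩ := x
  have := hl i hx
  cases b
  · simpa [inv] using this
  · simpa [inv] using this.symm

theorem J24_act_BOK (Lg : Finset (Fin N)) (π : Z N → ℕ) (hl : Loops Lg π) (h : Z N → FN N)
    (hA : Adm Lg π h) (S : List (Z N × List (Z N))) (hS : BOK Lg π S) : BOK Lg π (act h S) := by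
  have hmem : ∀ b ∈ act h S, ∃ q ∈ cyc S, b.1 = q.1.1 ∧
      b.2 = ((h (inv q.1.1))⁻¹ * FreeGroup.mk q.1.2 * h q.2.1).toWord := by
    intro b hb
    unfold act at hb
    obtain ⟨q, hq, rfl⟩ := List.mem_map.1 hb
    exact ⟨q, hq, rfl, rfl⟩
  have hq1 : ∀ q ∈ cyc S, q.1 ∈ S := by
    intro q hq
    exact (List.of_mem_zip (show (q.1, q.2) ∈ List.zip S (S.rotate 1) from hq)).1
  refine ⟨?_, ?_, ?_, ?_, ?_, ?_⟩
  · intro h0
    have h1 : (act h S).length = S.length := by
      simp [act, cyc]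
    rw [h0] at h1
    exact hS.ne (List.eq_nil_of_length_eq_zero h1.symm)
  · intro b hb
    obtain ⟨q, hq, e1, e2⟩ := hmem b hb
    rw [e1]
    exact hS.small q.1 (hq1 q hq)
  · intro b hb
    obtain ⟨q, hq, e1, e2⟩ := hmem b hb
    rw [e2]
    exact FreeGroup.isReduced_toWord
  · intro b hb x hx
    obtain ⟨q, hq, e1, e2⟩ := hmem b hb
    rw [e2] at hx
    rw [e1]
    rcases J24h_mem_mul _ _ _ hx with hx | hx
    · rcases J24h_mem_mul _ _ _ hx with hx | hx
      · have h1 := (hA (inv q.1.1)).2 _ (J24h_mem_inv _ _ hx)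
        have h2 : x.1 ∈ Lg := h1.1
        refine ⟨h2, ?_⟩
        rw [← J24h_inv_pi Lg π hl x h2]
        exact h1.2
      · exact hS.large q.1 (hq1 q hq) x (J24h_mem_mk _ _ hx)
    · have h1 := (hA q.2.1).2 _ hx
      refine ⟨h1.1, ?_⟩
      rw [h1.2]
      exact (hS.cpath q hq).symm
  · intro p hp
    obtain ⟨q, hq, e1, e2, e3⟩ := J24h_cyc_act h S p hp
    rw [e1, e2]
    exact hS.cpath q hq
  · intro p hp hn
    obtain ⟨q, hq, e1, e2, e3⟩ := J24h_cyc_act h S p hp
    rw [e1, e2]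
    intro hc
    rw [hn] at e3
    have h1 := FreeGroup.toWord_eq_nil_iff.1 e3.symm
    rw [hc] at h1
    have h2 : FreeGroup.mk q.1.2 = (1 : FN N) := by
      have h3 : (h q.2.1) * ((h q.2.1)⁻¹ * FreeGroup.mk q.1.2 * h q.2.1) * (h q.2.1)⁻¹ = 1 := by
        rw [h1]; group
      have h4 : (h q.2.1) * ((h q.2.1)⁻¹ * FreeGroup.mk q.1.2 * h q.2.1) * (h q.2.1)⁻¹ =
        FreeGroup.mk q.1.2 := by group
      rw [← h4]; exact h3
    have h5 : q.1.2 = [] := by
      have h6 : (FreeGroup.mk q.1.2 : FN N).toWord = [] := by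
        rw [h2]; exact FreeGroup.toWord_one
      rw [FreeGroup.toWord_mk] at h6
      rw [(hS.red q.1 (hq1 q hq)).reduce_eq] at h6
      exact h6
    exact hS.turn q hq h5 hc

end PW
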