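import Pool.Agent.Helper423.PW.Defs
import Pool.Agent.Helper423.PW.P_J01_cyc_fst

set_option autoImplicit false

namespace PW
variable {N : ℕ}


theorem J25_act_deg_W (Lg : Finset (Fin N)) (i : Fin N) (hi : i ∉ Lg)
    (S : List (Z N × List (Z N))) (hS : ∀ b ∈ S, ∀ x ∈ b.2, x.1 ∈ Lg) :
    deg (W S) i = (S.map Prod.fst).countP (fun z => z.1 = i) := by
  induction S with
  | nil => rfl
  | cons b S ih =>
    have h1 : W (b :: S) = (b.1 :: b.2) ++ W S := rfl
    have h2 : deg (W (b :: S)) i = deg (b.1 :: b.2) i + deg (W S) i := by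
      rw [h1]
      unfold deg
      rw [List.countP_append]
    rw [h2, ih (fun c hc => hS c (List.mem_cons_of_mem _ hc)), List.map_cons, List.countP_cons]
    have h3 : deg b.2 i = 0 := by
      unfold deg
      rw [List.countP_eq_zero]
      intro x hx hxi
      have hxi' : x.1 = i := by simpa using hxi
      exact hi (hxi' ▸ hS b List.mem_cons_self x hx)
    have h4 : deg (b.1 :: b.2) i = deg b.2 i + (if decide (b.1.1 = i) = true then 1 else 0) := by
      unfold deg
      rw [List.countP_cons]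
    rw [h4, h3]
    omega

theorem J25_act_deg_reduce (Lg : Finset (Fin N)) (l : List (Z N)) (hl : ∀ x ∈ l, x.1 ∈ Lg) :
    ∀ x ∈ FreeGroup.reduce l, x.1 ∈ Lg := by
  intro x hx
  exact hl x ((FreeGroup.Red.sublist FreeGroup.reduce.red).subset hx)

theorem J25_act_deg_mk (Lg : Finset (Fin N)) (l : List (Z N)) (hl : ∀ x ∈ l, x.1 ∈ Lg) :
    ∀ x ∈ (FreeGroup.mk l).toWord, x.1 ∈ Lg := by
  rw [FreeGroup.toWord_mk]
  exact J25_act_deg_reduce Lg l hl

theorem J25_act_deg_mul (Lg : Finset (Fin N)) (a b : FN N) (ha : ∀ x ∈ a.toWord, x.1 ∈ Lg)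
    (hb : ∀ x ∈ b.toWord, x.1 ∈ Lg) : ∀ x ∈ (a * b).toWord, x.1 ∈ Lg := by
  rw [FreeGroup.toWord_mul]
  apply J25_act_deg_reduce
  intro x hx
  rcases List.mem_append.1 hx with h | h
  · exact ha x h
  · exact hb x h

theorem J25_act_deg_inv (Lg : Finset (Fin N)) (a : FN N) (ha : ∀ x ∈ a.toWord, x.1 ∈ Lg) :
    ∀ x ∈ (a⁻¹).toWord, x.1 ∈ Lg := by
  rw [FreeGroup.toWord_inv]
  intro x hx
  unfold FreeGroup.invRev at hx
  rw [List.mem_reverse, List.mem_map] at hx
  obtain ⟨y, hy, rfl⟩ := hx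
  exact ha y hy

theorem J25_act_deg (Lg : Finset (Fin N)) (π : Z N → ℕ) (h : Z N → FN N) (hA : Adm Lg π h)
    (S : List (Z N × List (Z N))) (hS : BOK Lg π S) (i : Fin N) (hi : i ∉ Lg) :
    deg (W (act h S)) i = deg (W S) i := by
  have h1 : ∀ b ∈ act h S, ∀ x ∈ b.2, x.1 ∈ Lg := by
    intro b hb
    obtain ⟨p, hp, rfl⟩ := List.mem_map.1 hb
    have hp1 : p.1 ∈ S := by
      have := List.mem_map_of_mem (f := Prod.fst) hp
      rwa [J01_cyc_fst] at this
    apply J25_act_deg_mul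
    · apply J25_act_deg_mul
      · apply J25_act_deg_inv
        exact fun x hx => ((hA _).2 x hx).1
      · apply J25_act_deg_mk
        exact fun x hx => (hS.large p.1 hp1 x hx).1
    · exact fun x hx => ((hA _).2 x hx).1
  rw [J25_act_deg_W Lg i hi (act h S) h1,
    J25_act_deg_W Lg i hi S (fun b hb x hx => (hS.large b hb x hx).1)]
  congr 1
  have h2 : (act h S).map Prod.fst = ((cyc S).map Prod.fst).map Prod.fst := by
    unfold act
    rw [List.map_map, List.map_map]
    rfl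
  rw [h2, J01_cyc_fst]

end PW
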