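import Pool.Agent.Helper423.PW.Defs
import Pool.Agent.Helper423.PW.P_J01_cyc_fst

set_option autoImplicit false

namespace PW
variable {N : ℕ}


theorem J26_len_one (Lg : Finset (Fin N)) (π : Z N → ℕ) (S : List (Z N × List (Z N)))
    (hS : BOK Lg π S) : (W S).length = S.length + fS (strs S) (fun _ => 1) := by
  have h1 : fS (strs S) (fun _ => 1) = (S.map (fun b => b.2.length)).sum := by
    unfold fS strs
    rw [List.map_map]
    have h2 : ((fun s : Z N × FN N × Z N =>
        (((fun _ => (1 : FN N)) s.1)⁻¹ * s.2.1 * ((fun _ => (1 : FN N)) s.2.2)).norm) ∘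
        (fun p : (Z N × List (Z N)) × (Z N × List (Z N)) =>
          (inv p.1.1, FreeGroup.mk p.1.2, p.2.1))) =
        (fun b : Z N × List (Z N) => (FreeGroup.mk b.2 : FN N).norm) ∘ Prod.fst := by
      funext p
      simp
    rw [h2, ← List.map_map, J01_cyc_fst]
    congr 1
    apply List.map_congr_left
    intro b hb
    show (FreeGroup.mk b.2 : FN N).toWord.length = _
    rw [FreeGroup.toWord_mk, (hS.red b hb).reduce_eq]
  have h3 : ∀ S : List (Z N × List (Z N)),
      (W S).length = S.length + (S.map (fun b => b.2.length)).sum := by
    intro S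
    induction S with
    | nil => simp [W]
    | cons b S ih =>
      have : W (b :: S) = (b.1 :: b.2) ++ W S := by simp [W]
      rw [this, List.length_append, ih, List.map_cons, List.sum_cons, List.length_cons,
        List.length_cons]
      omega
  rw [h1, h3]

end PW
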