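import Pool.Agent.Helper423.PW.Defs
import Pool.Agent.Helper423.PW.P_J01_cyc_fst
import Pool.Agent.Helper423.PW.P_J02_cyc_snd
import Pool.Agent.Helper423.PW.P_J03_turns_W

set_option autoImplicit false

namespace PW
variable {N : ℕ}


theorem J27_aux1 {β γ : Type} (l : List β) (f : β → List γ) (P : γ → Bool) (A B : β → Bool)
    (h : ∀ x ∈ l, (f x).countP P = (if A x then 1 else 0) + (if B x then 1 else 0)) :
    (l.flatMap f).countP P = l.countP A + l.countP B := by
  induction l with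
  | nil => simp
  | cons x l ih =>
    rw [List.flatMap_cons, List.countP_append, List.countP_cons, List.countP_cons,
      ih (fun y hy => h y (List.mem_cons_of_mem _ hy)), h x List.mem_cons_self]
    omega

theorem J27_aux2 (U : Finset (Z N)) (P : Z N × Z N → Bool)
    (hP : ∀ t, P t = true ↔ ((t.1 ∈ U ∧ t.2 ∉ U) ∨ (t.1 ∉ U ∧ t.2 ∈ U))) (z : Z N)
    (w : List (Z N)) : ∀ a : Z N, (∀ x ∈ a :: w, x ∉ U ∧ inv x ∉ U) →
    (lin (a :: w) z).countP P = if z ∈ U then 1 else 0 := by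
  induction w with
  | nil =>
    intro a ha
    have h1 : lin [a] z = [(inv a, z)] := rfl
    have h2 := (ha a (by simp)).2
    rw [h1, List.countP_cons, List.countP_nil]
    by_cases hz : z ∈ U
    · have : P (inv a, z) = true := (hP _).2 (Or.inr ⟨h2, hz⟩)
      rw [this]; simp [hz]
    · have : ¬ P (inv a, z) = true := by
        rw [hP]
        rintro (⟨h, _⟩ | ⟨_, h⟩)
        · exact h2 h
        · exact hz h
      simp [this, hz]
  | cons b w ih =>
    intro a ha
    have h1 : lin (a :: b :: w) z = (inv a, b) :: lin (b :: w) z := rfl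
    have h2 := (ha a (by simp)).2
    have h3 := (ha b (by simp)).1
    rw [h1, List.countP_cons, ih b (fun x hx => ha x (List.mem_cons_of_mem _ hx))]
    have : ¬ P (inv a, b) = true := by
      rw [hP]
      rintro (⟨h, _⟩ | ⟨_, h⟩)
      · exact h2 h
      · exact h3 h
    simp [this]

theorem J27_aux3 (U : Finset (Z N)) (P : Z N × Z N → Bool)
    (hP : ∀ t, P t = true ↔ ((t.1 ∈ U ∧ t.2 ∉ U) ∨ (t.1 ∉ U ∧ t.2 ∈ U))) (x z : Z N)
    (w : List (Z N)) (hw : w ≠ []) (hl : ∀ y ∈ w, y ∉ U ∧ inv y ∉ U) :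
    (lin (x :: w) z).countP P = (if inv x ∈ U then 1 else 0) + if z ∈ U then 1 else 0 := by
  cases w with
  | nil => exact absurd rfl hw
  | cons a w =>
    have h1 : lin (x :: a :: w) z = (inv x, a) :: lin (a :: w) z := rfl
    rw [h1, List.countP_cons, J27_aux2 U P hP z w a hl, add_comm]
    congr 1
    have h3 := (hl a (by simp)).1
    by_cases hx : inv x ∈ U
    · have : P (inv x, a) = true := (hP _).2 (Or.inl ⟨hx, h3⟩)
      rw [this]; simp [hx]
    · have : ¬ P (inv x, a) = true := by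
        rw [hP]
        rintro (⟨h, _⟩ | ⟨_, h⟩)
        · exact hx h
        · exact h3 h
      simp [this, hx]

theorem J27_cap (Lg : Finset (Fin N)) (π : Z N → ℕ) (S : List (Z N × List (Z N)))
    (hS : BOK Lg π S) (U : Finset (Z N)) (hU : ∀ α ∈ U, α.1 ∉ Lg) :
    cap (W S) U = leav (strs S) (fun _ => 1) U := by
  classical
  unfold cap tn leav strs
  rw [J03_turns_W, List.countP_map, List.countP_map]
  refine J27_aux1 _ _ _ _ _ ?_
  intro p hp
  have hp1 : p.1 ∈ S := by
    have h1 : p.1 ∈ (cyc S).map Prod.fst := List.mem_map_of_mem hp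
    rwa [J01_cyc_fst] at h1
  have hP : ∀ t : Z N × Z N, (decide ((t.1 ∈ U ∧ t.2 ∈ Uᶜ) ∨ (t.1 ∈ Uᶜ ∧ t.2 ∈ U))) = true ↔
      ((t.1 ∈ U ∧ t.2 ∉ U) ∨ (t.1 ∉ U ∧ t.2 ∈ U)) := by
    intro t
    simp only [decide_eq_true_eq, Finset.mem_compl]
  by_cases hw : p.1.2 = []
  · have h1 : lin (p.1.1 :: p.1.2) p.2.1 = [(inv p.1.1, p.2.1)] := by rw [hw]; rfl
    rw [h1, List.countP_cons, List.countP_nil]
    have h2 : FreeGroup.mk p.1.2 = 1 := by rw [hw]; rfl
    by_cases ha : inv p.1.1 ∈ U <;> by_cases hb : p.2.1 ∈ U <;> simp [ha, hb, h2]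
  · have h1 := J27_aux3 U _ hP p.1.1 p.2.1 p.1.2 hw (by
      intro y hy
      have h3 := (hS.large p.1 hp1 y hy).1
      exact ⟨fun h => hU y h h3, fun h => hU (inv y) h h3⟩)
    rw [h1]
    have h2 : FreeGroup.mk p.1.2 ≠ 1 := by
      intro h
      have h3 := hS.red p.1 hp1
      have h4 : FreeGroup.reduce p.1.2 = p.1.2 := FreeGroup.IsReduced.reduce_eq h3
      have h5 : (FreeGroup.mk p.1.2).toWord = [] := by rw [h]; exact FreeGroup.toWord_one
      rw [FreeGroup.toWord_mk, h4] at h5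
      exact hw h5
    by_cases ha : inv p.1.1 ∈ U <;> by_cases hb : p.2.1 ∈ U <;> simp [ha, hb, h2]

end PW
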