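import Pool.Agent.Helper423.PW.Defs

set_option autoImplicit false

namespace PW
variable {N : ℕ}


theorem J28_norm_red (w : List (Z N)) (hw : FreeGroup.IsReduced w) :
    (FreeGroup.mk w).norm = w.length := by
  unfold FreeGroup.norm
  rw [FreeGroup.toWord_mk, hw.reduce_eq]

theorem J28_nil_or (w : List (Z N)) : w = [] ∨ ∃ l b, w = l ++ [b] := by
  rcases List.eq_nil_or_concat w with rfl | ⟨l, b, h⟩
  · exact Or.inl rfl
  · exact Or.inr ⟨l, b, by rw [h, List.concat_eq_append]⟩

theorem J28_gl (a b : Z N) (l : List (Z N)) : (a :: (l ++ [b])).getLast? = some b := by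
  rw [← List.cons_append]; exact List.getLast?_concat

theorem J28_inv_ne (y : Z N) : y ≠ inv y := by
  intro h
  have : y.2 = !y.2 := congrArg Prod.snd h
  cases h2 : y.2 <;> rw [h2] at this <;> simp at this

theorem J28_left (y : Z N) (w : List (Z N)) (hw : FreeGroup.IsReduced w) :
    ∃ w1, (lt y)⁻¹ * FreeGroup.mk w = FreeGroup.mk w1 ∧ FreeGroup.IsReduced w1 ∧
      ((w.head? = some y ∧ w = y :: w1) ∨ (w.head? ≠ some y ∧ w1 = inv y :: w)) := by
  by_cases h : w.head? = some y
  · cases w with
    | nil => simp at h
    | cons a l =>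
      simp only [List.head?_cons, Option.some.injEq] at h
      subst h
      refine ⟨l, ?_, ?_, Or.inl ⟨rfl, rfl⟩⟩
      · have : FreeGroup.mk (a :: l) = lt a * FreeGroup.mk l := by
          unfold lt; rw [FreeGroup.mul_mk]; rfl
        rw [this, inv_mul_cancel_left]
      · exact (List.isChain_cons.mp hw).2
  · refine ⟨inv y :: w, ?_, ?_, Or.inr ⟨h, rfl⟩⟩
    · unfold lt
      rw [FreeGroup.inv_mk, FreeGroup.mul_mk]
      rfl
    · refine List.isChain_cons.mpr ⟨?_, hw⟩
      intro b hb hb1
      have hby : b ≠ y := by
        rintro rfl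
        exact h hb
      have : ¬ (y.2 = b.2) := fun h2 => hby (Prod.ext hb1.symm h2.symm)
      show (!y.2) = b.2
      cases h3 : y.2 <;> cases h4 : b.2 <;> simp_all

theorem J28_right (y : Z N) (w : List (Z N)) (hw : FreeGroup.IsReduced w) :
    ∃ w1, FreeGroup.mk w * lt y = FreeGroup.mk w1 ∧ FreeGroup.IsReduced w1 ∧
      ((w.getLast? = some (inv y) ∧ w = w1 ++ [inv y]) ∨
        (w.getLast? ≠ some (inv y) ∧ w1 = w ++ [y])) := by
  by_cases h : w.getLast? = some (inv y)
  · obtain ⟨l, rfl⟩ : ∃ l, w = l ++ [inv y] := by
      rcases J28_nil_or w with rfl | ⟨l, b, rfl⟩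
      · simp at h
      · simp at h
        exact ⟨l, by rw [h]⟩
    refine ⟨l, ?_, ?_, Or.inl ⟨h, rfl⟩⟩
    · have : FreeGroup.mk (l ++ [inv y]) = FreeGroup.mk l * (lt y)⁻¹ := by
        unfold lt; rw [FreeGroup.inv_mk, FreeGroup.mul_mk]; rfl
      rw [this, inv_mul_cancel_right]
    · exact (List.isChain_append.mp hw).1
  · refine ⟨w ++ [y], ?_, ?_, Or.inr ⟨h, rfl⟩⟩
    · unfold lt
      rw [FreeGroup.mul_mk]
    · refine List.isChain_append.mpr ⟨hw, List.isChain_singleton _, ?_⟩
      intro a ha b hb hb1
      simp only [List.head?_cons, Option.mem_def, Option.some.injEq] at hb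
      subst hb
      have hay : a ≠ inv y := by
        rintro rfl
        exact h ha
      have : ¬ (a.2 = !y.2) := fun h2 => hay (Prod.ext hb1 h2)
      cases h3 : y.2 <;> cases h4 : a.2 <;> simp_all

/-- one strand: effect of moving the half-edges in `A` by the letter `y` -/
theorem J28_one_strand (y : Z N) (w : List (Z N)) (hw : FreeGroup.IsReduced w) (p q : Prop)
    [Decidable p] [Decidable q] :
    (((if p then lt y else 1)⁻¹ * FreeGroup.mk w * (if q then lt y else 1)).norm : ℤ) =
      w.length + (if p then (if w.head? = some y then -1 else if w = [] ∧ q then 0 else 1) else 0) +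
        (if q then (if w.getLast? = some (inv y) then -1 else if w = [] ∧ p then 0 else 1) else 0) := by
  have hyy : y ≠ inv y := J28_inv_ne y
  by_cases hp : p
  · obtain ⟨w1, e1, r1, c1⟩ := J28_left y w hw
    by_cases hq : q
    · obtain ⟨w2, e2, r2, c2⟩ := J28_right y w1 r1
      simp only [hp, hq, if_true, and_true]
      rw [e1, e2, J28_norm_red w2 r2]
      rcases c1 with ⟨h1, h1'⟩ | ⟨h1, h1'⟩
      · rw [if_pos h1]
        rcases c2 with ⟨h2, h2'⟩ | ⟨h2, h2'⟩
        · have h3 : w.getLast? = some (inv y) := by
            rw [h1', h2', J28_gl]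
          rw [if_pos h3, h1', h2']
          simp
        · have h3 : w.getLast? ≠ some (inv y) := by
            rw [h1']
            rcases J28_nil_or w1 with rfl | ⟨l, b, rfl⟩
            · intro h5
              have h6 : some y = some (inv y) := h5
              exact hyy (Option.some.inj h6)
            · rw [J28_gl]
              simpa using h2
          have h4 : w ≠ [] := by rw [h1']; simp
          rw [if_neg h3, if_neg h4, h1', h2']
          simp
      · rw [if_neg h1]
        rcases c2 with ⟨h2, h2'⟩ | ⟨h2, h2'⟩
        · rcases J28_nil_or w with rfl | ⟨l, b, rfl⟩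
          · rw [h1'] at h2'
            have : w2 = [] := by
              have := congrArg List.length h2'
              simp at this
              exact this
            rw [this]; simp
          · have h3 : (l ++ [b]).getLast? = some (inv y) := by
              rw [h1', J28_gl] at h2
              simpa using h2
            have h4 : l ++ [b] ≠ [] := by simp
            rw [if_neg h4, if_pos h3]
            have := congrArg List.length (h1'.symm.trans h2')
            simp at this
            simp
            omega
        · rcases J28_nil_or w with rfl | ⟨l, b, rfl⟩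
          · exfalso; rw [h1'] at h2; simp at h2
          · have h3 : (l ++ [b]).getLast? ≠ some (inv y) := by
              rw [h1', J28_gl] at h2
              simpa using h2
            have h4 : l ++ [b] ≠ [] := by simp
            rw [if_neg h4, if_neg h3, h2', h1']
            simp
            omega
    · simp only [hp, hq, if_true, if_false, and_false, mul_one, add_zero]
      rw [e1, J28_norm_red w1 r1]
      rcases c1 with ⟨h1, h1'⟩ | ⟨h1, h1'⟩
      · rw [if_pos h1, h1']; simp
      · rw [if_neg h1, h1']; simp
  · by_cases hq : q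
    · obtain ⟨w1, e1, r1, c1⟩ := J28_right y w hw
      simp only [hp, hq, if_true, if_false, and_false, inv_one, one_mul, add_zero]
      rw [e1, J28_norm_red w1 r1]
      rcases c1 with ⟨h1, h1'⟩ | ⟨h1, h1'⟩
      · rw [if_pos h1, h1']; simp
      · rw [if_neg h1, h1']; simp
    · simp only [hp, hq, if_false, inv_one, one_mul, mul_one, add_zero]
      rw [J28_norm_red w hw]

end PW
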