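import Pool.Agent.Helper423.PW.Defs
import Pool.Agent.Helper423.PW.P_J01_cyc_fst
import Pool.Agent.Helper423.PW.P_J02_cyc_snd
import Pool.Agent.Helper423.PW.P_J03_turns_W
import Pool.Agent.Helper423.PW.P_J28_one_strand

set_option autoImplicit false

namespace PW
variable {N : ℕ}


theorem J29_lin_count (Lg : Finset (Fin N)) (A B : Finset (Z N)) (hAL : ∀ α ∈ A, α.1 ∉ Lg)
    (l : List (Z N)) (x z : Z N) (hl : ∀ a ∈ l, a.1 ∈ Lg) (hx : x.1 ∈ Lg) :
    (lin (l ++ [x]) z).countP (fun t => (t.1 ∈ A ∧ t.2 ∈ B) ∨ (t.1 ∈ B ∧ t.2 ∈ A)) =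
      if z ∈ A ∧ inv x ∈ B then 1 else 0 := by
  have hinv : ∀ a : Z N, a.1 ∈ Lg → inv a ∉ A := fun a ha h => hAL _ h ha
  have hself : ∀ a : Z N, a.1 ∈ Lg → a ∉ A := fun a ha h => hAL _ h ha
  induction l with
  | nil =>
    have h0 := hinv x hx
    by_cases h1 : z ∈ A <;> by_cases h2 : inv x ∈ B <;> simp [lin, h0, h1, h2]
  | cons a l ih =>
    have hne : ∃ c t, l ++ [x] = c :: t := by
      cases l with
      | nil => exact ⟨x, [], rfl⟩
      | cons c t => exact ⟨c, t ++ [x], rfl⟩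
    obtain ⟨c, t, hct⟩ := hne
    have hc : c.1 ∈ Lg := by
      have : c ∈ l ++ [x] := by rw [hct]; simp
      rcases List.mem_append.1 this with h | h
      · exact hl c (by simp [h])
      · have h' : c = x := by simpa using h
        rw [h']; exact hx
    have e : lin ((a :: l) ++ [x]) z = (inv a, c) :: lin (l ++ [x]) z := by
      rw [List.cons_append, hct]; rfl
    rw [e, List.countP_cons, ih (fun b hb => hl b (by simp [hb]))]
    have h1 := hinv a (hl a (by simp))
    have h2 := hself c hc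
    simp [h1, h2]

theorem J29_block (Lg : Finset (Fin N)) (π : Z N → ℕ) (hl : Loops Lg π)
    (y : Z N) (hy : y.1 ∈ Lg) (A : Finset (Z N)) (hA : ∀ α ∈ A, α.1 ∉ Lg ∧ π α = π y)
    (b z : Z N) (w : List (Z N)) (hb : b.1 ∉ Lg) (hz : z.1 ∉ Lg) (hred : FreeGroup.IsReduced w)
    (hw : ∀ x ∈ w, x.1 ∈ Lg ∧ π x = π (inv b)) (hπ : π (inv b) = π z) :
    ((((if inv b ∈ A then lt y else 1)⁻¹ * FreeGroup.mk w * (if z ∈ A then lt y else 1)).norm : ℕ) : ℤ) +
      ((lin (b :: w) z).countP (fun t => (t.1 ∈ A ∧ t.2 ∈ ({y} : Finset (Z N))) ∨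
        (t.1 ∈ ({y} : Finset (Z N)) ∧ t.2 ∈ A)) : ℤ) =
    (((1 : FN N)⁻¹ * FreeGroup.mk w * 1).norm : ℤ) +
      ((lin (b :: w) z).countP (fun t => (t.1 ∈ A ∧ t.2 ∈ (blk π (π y) \ (insert y A))) ∨
        (t.1 ∈ (blk π (π y) \ (insert y A)) ∧ t.2 ∈ A)) : ℤ) := by
  have hAL : ∀ α ∈ A, α.1 ∉ Lg := fun α h => (hA α h).1
  have h0 : (((1 : FN N)⁻¹ * FreeGroup.mk w * 1).norm : ℤ) = w.length := by
    have := J28_one_strand y w hred False False
    simpa using this
  rw [h0, J28_one_strand y w hred (inv b ∈ A) (z ∈ A)]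
  have hR : ∀ u : Z N, u ∈ (blk π (π y) \ (insert y A)) ↔ (π u = π y ∧ u ≠ y ∧ u ∉ A) := by
    intro u
    simp [blk, Finset.mem_sdiff, Finset.mem_insert, not_or]
  have hzy : z ≠ y := fun h => hz (h ▸ hy)
  have hby : inv b ≠ y := fun h => hb (by
    have : (inv b).1 ∈ Lg := h ▸ hy
    exact this)
  cases w with
  | nil =>
    have e : ∀ B : Finset (Z N), (lin (b :: []) z).countP
        (fun t => (t.1 ∈ A ∧ t.2 ∈ B) ∨ (t.1 ∈ B ∧ t.2 ∈ A)) =
        if (inv b ∈ A ∧ z ∈ B) ∨ (inv b ∈ B ∧ z ∈ A) then 1 else 0 := by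
      intro B
      by_cases hc : (inv b ∈ A ∧ z ∈ B) ∨ (inv b ∈ B ∧ z ∈ A) <;> simp [lin, hc]
    rw [e, e]
    simp only [hR, Finset.mem_singleton, hzy, hby, and_false, false_and, or_self, if_false]
    by_cases hp : inv b ∈ A
    · have h1 : π (inv b) = π y := (hA _ hp).2
      have h2 : π z = π y := by rw [← hπ]; exact h1
      by_cases hq : z ∈ A
      · simp [hp, hq]
      · simp [hp, hq, h2, hzy]
    · by_cases hq : z ∈ A
      · have h2 : π z = π y := (hA _ hq).2
        have h1 : π (inv b) = π y := by rw [hπ]; exact h2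
        simp [hp, hq, h1, hby]
      · simp [hp, hq]
  | cons c t =>
    obtain ⟨l, x, hlx⟩ : ∃ l x, c :: t = l ++ [x] := by
      rcases List.eq_nil_or_concat (c :: t) with h | ⟨l, x, h⟩
      · exact absurd h (by simp)
      · exact ⟨l, x, by simpa using h⟩
    have hxw : x ∈ c :: t := by rw [hlx]; simp
    have hlw : ∀ a ∈ l, a.1 ∈ Lg := fun a ha => (hw a (by rw [hlx]; simp [ha])).1
    have hcL := hw c (by simp)
    have hxL := hw x hxw
    have hcA : c ∉ A := fun h => hAL c h hcL.1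
    have hgl : (c :: t).getLast? = some x := by rw [hlx]; simp
    have e : ∀ B : Finset (Z N), (lin (b :: c :: t) z).countP
        (fun t => (t.1 ∈ A ∧ t.2 ∈ B) ∨ (t.1 ∈ B ∧ t.2 ∈ A)) =
        (if z ∈ A ∧ inv x ∈ B then 1 else 0) + (if inv b ∈ A ∧ c ∈ B then 1 else 0) := by
      intro B
      have e1 : lin (b :: c :: t) z = (inv b, c) :: lin (c :: t) z := rfl
      rw [e1, List.countP_cons, hlx, J29_lin_count Lg A B hAL l x z hlw hxL.1]
      simp [hcA]
    rw [e, e, hgl]
    simp only [hR, Finset.mem_singleton, List.head?_cons, Option.some.injEq]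
    have hxx : x = inv y ↔ inv x = y := by
      constructor
      · intro h; rw [h]; simp [inv]
      · intro h; rw [← h]; simp [inv]
    simp only [hxx]
    have hixA : inv x ∉ A := fun h => hAL _ h hxL.1
    have hix : π (inv x) = π x := by
      obtain ⟨i, bb⟩ := x
      have := hl i hxL.1
      cases bb
      · exact this
      · exact this.symm
    by_cases hp : inv b ∈ A
    · have h1 : π (inv b) = π y := (hA _ hp).2
      have h2 : π z = π y := by rw [← hπ]; exact h1
      have h3 : π c = π y := by rw [hcL.2]; exact h1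
      have h4 : π (inv x) = π y := by rw [hix, hxL.2]; exact h1
      by_cases hq : z ∈ A
      · by_cases hc1 : c = y <;> by_cases hx1 : inv x = y <;>
          simp [hp, hq, hc1, hx1, h3, h4, hcA, hixA] <;> omega
      · by_cases hc1 : c = y <;> by_cases hx1 : inv x = y <;>
          simp [hp, hq, hc1, hx1, h3, h4, hcA, hixA]
    · by_cases hq : z ∈ A
      · have h2 : π z = π y := (hA _ hq).2
        have h1 : π (inv b) = π y := by rw [hπ]; exact h2
        have h4 : π (inv x) = π y := by rw [hix, hxL.2]; exact h1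
        by_cases hc1 : c = y <;> by_cases hx1 : inv x = y <;>
          simp [hp, hq, hc1, hx1, h4, hcA, hixA]
      · simp [hp, hq]

theorem J29_sum {α : Type} (l : List α) (f g f' g' : α → ℕ)
    (h : ∀ p ∈ l, (f p : ℤ) + g p = f' p + g' p) :
    (((l.map f).sum : ℕ) : ℤ) + ((l.map g).sum : ℕ) = ((l.map f').sum : ℕ) + ((l.map g').sum : ℕ) := by
  induction l with
  | nil => simp
  | cons a l ih =>
    have h1 := h a (by simp)
    have h2 := ih (fun p hp => h p (by simp [hp]))
    simp only [List.map_cons, List.sum_cons, Nat.cast_add]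
    linarith

/-- the length change of an elementary slide is a difference of turn numbers -/
theorem J29_slide (Lg : Finset (Fin N)) (π : Z N → ℕ) (hl : Loops Lg π)
    (S : List (Z N × List (Z N))) (hS : BOK Lg π S) (y : Z N) (hy : y.1 ∈ Lg) (A : Finset (Z N))
    (hA : ∀ α ∈ A, α.1 ∉ Lg ∧ π α = π y) :
    (fS (strs S) (fun α => if α ∈ A then lt y else 1) : ℤ) + tn (W S) A {y} =
      fS (strs S) (fun _ => 1) + tn (W S) A (blk π (π y) \ (insert y A)) := by
  have htn : ∀ B : Finset (Z N), tn (W S) A B = ((cyc S).map (fun p =>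
      (lin (p.1.1 :: p.1.2) p.2.1).countP
        (fun t => (t.1 ∈ A ∧ t.2 ∈ B) ∨ (t.1 ∈ B ∧ t.2 ∈ A)))).sum := by
    intro B
    unfold tn
    rw [J03_turns_W, List.countP_flatMap]
    rfl
  rw [htn, htn]
  unfold fS strs
  rw [List.map_map, List.map_map]
  apply J29_sum
  intro p hp
  have hp1 : p.1 ∈ S := (List.of_mem_zip hp).1
  have hp2 : p.2 ∈ S := List.mem_rotate.1 (List.of_mem_zip hp).2
  exact J29_block Lg π hl y hy A hA p.1.1 p.2.1 p.1.2 (hS.small _ hp1) (hS.small _ hp2)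
    (hS.red _ hp1) (hS.large _ hp1) (hS.cpath p hp)

end PW
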