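import Pool.Agent.Helper423.PW.Defs
import Pool.Agent.Helper423.PW.P_J01_cyc_fst

set_option autoImplicit false

namespace PW
variable {N : ℕ}


theorem J30_cnt_mul (i : Fin N) (x g : FN N) :
    (x * g).toWord.countP (fun z => z.1 = i) ≤
      x.toWord.countP (fun z => z.1 = i) + g.toWord.countP (fun z => z.1 = i) := by
  rw [← List.countP_append]
  exact (FreeGroup.toWord_mul_sublist x g).countP_le

theorem J30_left (i : Fin N) (x g : FN N) (h1 : x.toWord.countP (fun z => z.1 = i) = 0)
    (h2 : (x⁻¹).toWord.countP (fun z => z.1 = i) = 0) :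
    (x * g).toWord.countP (fun z => z.1 = i) = g.toWord.countP (fun z => z.1 = i) := by
  have a := J30_cnt_mul i x g
  have b := J30_cnt_mul i x⁻¹ (x * g)
  rw [inv_mul_cancel_left] at b
  omega

theorem J30_right (i : Fin N) (x g : FN N) (h1 : x.toWord.countP (fun z => z.1 = i) = 0)
    (h2 : (x⁻¹).toWord.countP (fun z => z.1 = i) = 0) :
    (g * x).toWord.countP (fun z => z.1 = i) = g.toWord.countP (fun z => z.1 = i) := by
  have a := J30_cnt_mul i g x
  have b := J30_cnt_mul i (g * x) x⁻¹
  rw [mul_inv_cancel_right] at b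
  omega

theorem J30_lt (i : Fin N) (y : Z N) (hi : i ≠ y.1) :
    (lt y).toWord.countP (fun z => z.1 = i) = 0 ∧
      ((lt y)⁻¹).toWord.countP (fun z => z.1 = i) = 0 := by
  have h0 : (lt y).toWord = [y] := by
    unfold lt
    rw [FreeGroup.toWord_mk]
    exact (FreeGroup.IsReduced.singleton).reduce_eq
  constructor
  · rw [h0]
    simp [List.countP_cons, Ne.symm hi]
  · rw [FreeGroup.toWord_inv, h0]
    simp [FreeGroup.invRev, List.countP_cons, Ne.symm hi]

theorem J30_slide_cnt (i : Fin N) (y : Z N) (hi : i ≠ y.1) (A : Finset (Z N)) (α : Z N) :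
    (((fun α => if α ∈ A then lt y else (1 : FN N)) α).toWord.countP (fun z => z.1 = i) = 0) ∧
      ((((fun α => if α ∈ A then lt y else (1 : FN N)) α)⁻¹).toWord.countP (fun z => z.1 = i) = 0) := by
  by_cases h : α ∈ A
  · simp only [h, if_true]
    exact J30_lt i y hi
  · simp [h]

theorem J30_deg_slide (Lg : Finset (Fin N)) (π : Z N → ℕ)
    (S : List (Z N × List (Z N))) (hS : BOK Lg π S) (y : Z N) (A : Finset (Z N)) (i : Fin N)
    (hi : i ≠ y.1) :
    deg (W (act (fun α => if α ∈ A then lt y else 1) S)) i = deg (W S) i := by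
  have hW : deg (W S) i = deg (W ((cyc S).map Prod.fst)) i := by
    rw [J01_cyc_fst]
  rw [hW]
  unfold W deg act
  rw [List.countP_flatMap, List.countP_flatMap, List.map_map, List.map_map]
  congr 1
  apply List.map_congr_left
  intro p hp
  have hpS : p.1 ∈ S := by
    rw [← J01_cyc_fst S]
    exact List.mem_map_of_mem hp
  have hred := hS.red p.1 hpS
  simp only [Function.comp]
  rw [List.countP_cons, List.countP_cons]
  congr 1
  have h1 := J30_slide_cnt i y hi A (inv p.1.1)
  have h2 := J30_slide_cnt i y hi A p.2.1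
  simp only at h1 h2
  rw [J30_right i _ _ h2.1 h2.2]
  rw [J30_left i _ _ h1.2 (by rw [inv_inv]; exact h1.1)]
  rw [FreeGroup.toWord_mk, hred.reduce_eq]

end PW
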