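import Pool.Agent.Helper423.PW.Defs
import Pool.Agent.Helper423.PW.P_J04_turns_rot

set_option autoImplicit false

namespace PW
variable {N : ℕ}


theorem J31_good_rot (L L' : List (Z N)) (Lg : Finset (Fin N)) (π : Z N → ℕ) (B : ℕ)
    (h : L ~r L') (hG : Good L Lg π B) : Good L' Lg π B := by
  have hp := J04_turns_rot L L' h
  have hL : L.Perm L' := h.perm
  refine ⟨?_, ?_, ?_, hG.loop, ?_⟩
  · intro h0
    apply hG.ne
    rw [h0] at hL
    exact hL.eq_nil
  · intro t ht
    exact hG.tight t (hp.mem_iff.2 ht)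
  · intro t ht
    exact hG.path t (hp.mem_iff.2 ht)
  · intro i hi
    have h1 := hG.small i hi
    unfold deg at h1 ⊢
    rwa [← hL.countP_eq]

end PW
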