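import Pool.Agent.Helper423.PW.Defs

set_option autoImplicit false

namespace PW
variable {N : ℕ}


theorem J33_deg_rot (L L' : List (Z N)) (h : L ~r L') (i : Fin N) : deg L i = deg L' i := by
  unfold deg
  exact h.perm.countP_eq _
end PW
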