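import Pool.Agent.Helper423.PW.Defs

set_option autoImplicit false

namespace PW
variable {N : ℕ}


theorem J34_k_le_a (Lg : Finset (Fin N)) (S : List (Z N × List (Z N)))
    (hS : ∀ b ∈ S, b.1.1 ∉ Lg) : S.length ≤ (W S).countP (fun x => decide (x.1 ∉ Lg)) := by
  induction S with
  | nil => simp
  | cons b S ih =>
    have h1 := ih (fun c hc => hS c (List.mem_cons_of_mem _ hc))
    have h2 : b.1.1 ∉ Lg := hS b (by simp)
    have h3 : W (b :: S) = b.1 :: (b.2 ++ W S) := by
      unfold W
      rw [List.flatMap_cons]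
      rfl
    rw [h3, List.countP_cons, List.countP_append, List.length_cons]
    have h4 : (if (decide (b.1.1 ∉ Lg)) = true then 1 else 0) = 1 := by
      rw [if_pos (decide_eq_true h2)]
    rw [h4]
    omega

theorem J34_k_le_b (Lg : Finset (Fin N)) (L : List (Z N)) :
    L.countP (fun x => decide (x.1 ∉ Lg)) ≤ ∑ i ∈ Lgᶜ, deg L i := by
  induction L with
  | nil => simp
  | cons x L ih =>
    have h1 : ∀ i, deg (x :: L) i = deg L i + if x.1 = i then 1 else 0 := by
      intro i
      unfold deg
      rw [List.countP_cons]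
      simp
    simp only [h1]
    rw [Finset.sum_add_distrib, List.countP_cons]
    refine add_le_add ih ?_
    by_cases hx : x.1 ∈ Lg
    · simp [hx]
    · rw [Finset.sum_ite_eq]
      simp [hx]

/-- number of small letters -/
theorem J34_k_le (Lg : Finset (Fin N)) (π : Z N → ℕ) (B : ℕ) (S : List (Z N × List (Z N)))
    (hS : BOK Lg π S) (hG : Good (W S) Lg π B) : S.length ≤ N * B := by
  have h1 := J34_k_le_a Lg S hS.small
  have h2 := J34_k_le_b Lg (W S)
  have h3 : ∑ i ∈ Lgᶜ, deg (W S) i ≤ ∑ _i ∈ Lgᶜ, B :=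
    Finset.sum_le_sum fun i hi => hG.small i (Finset.mem_compl.1 hi)
  rw [Finset.sum_const, smul_eq_mul] at h3
  have h4 : (Lgᶜ).card ≤ N := by
    have h5 := Finset.card_le_univ (Lgᶜ)
    rwa [Fintype.card_fin] at h5
  exact ((h1.trans h2).trans h3).trans (Nat.mul_le_mul_right _ h4)

end PW
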