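import Pool.Agent.Helper423.PW.Defs
import Pool.Agent.Helper423.PW.P_J13_sig_lt

set_option autoImplicit false

namespace PW
variable {N : ℕ}


/-- if all letters of `L` are large then slides do nothing -/
theorem J35_all_large (Lg : Finset (Fin N)) (π : Z N → ℕ) (h : Z N → FN N) (hA : Adm Lg π h)
    (L : List (Z N)) (hL : ∀ x ∈ L, x.1 ∈ Lg) : sig h (FreeGroup.mk L) = FreeGroup.mk L := by
  induction L with
  | nil =>
    have h1 : (FreeGroup.mk [] : FreeGroup (Fin N)) = 1 := rfl
    rw [h1, map_one]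
  | cons x L ih =>
    have h1 : (FreeGroup.mk (x :: L) : FreeGroup (Fin N)) = lt x * FreeGroup.mk L := by
      unfold lt
      rw [FreeGroup.mul_mk]
      rfl
    have hx : x.1 ∈ Lg := hL x (List.mem_cons_self ..)
    have e1 : h x = 1 := (hA x).1 hx
    have e2 : h (inv x) = 1 := (hA (inv x)).1 hx
    rw [h1, map_mul, J13_sig_lt, e1, e2, ih (fun y hy => hL y (List.mem_cons_of_mem _ hy))]
    simp

end PW
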