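import Pool.Agent.Helper423.PW.Defs

set_option autoImplicit false

namespace PW
variable {N : ℕ}


/-- strands as a relation on half-edges -/
def J36R (str : List (Z N × FN N × Z N)) (α β : Z N) : Prop := ∃ s ∈ str, s.1 = α ∧ s.2.2 = β

/-- connected components -/
def J36S (str : List (Z N × FN N × Z N)) : Setoid (Z N) := Relation.EqvGen.setoid (J36R str)

/-- the representative -/
noncomputable def J36r (str : List (Z N × FN N × Z N)) (α : Z N) : Z N :=
  Quotient.out (Quotient.mk (J36S str) α)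

/-- components with trivial strands -/
def J36G (str : List (Z N × FN N × Z N)) (α : Z N) : Prop :=
  ∀ s ∈ str, (J36S str) s.1 α → s.2.1 = 1

theorem J36_rr (str : List (Z N × FN N × Z N)) (α : Z N) : (J36S str) (J36r str α) α :=
  Quotient.mk_out α

theorem J36_req (str : List (Z N × FN N × Z N)) {α β : Z N} (h : (J36S str) α β) :
    J36r str α = J36r str β := by
  unfold J36r
  have h1 : Quotient.mk (J36S str) α = Quotient.mk (J36S str) β := Quotient.sound h
  rw [h1]

theorem J36_Geq (str : List (Z N × FN N × Z N)) {α β : Z N} (h : (J36S str) α β)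
    (hg : J36G str α) : J36G str β := by
  intro s hs hsb
  exact hg s hs ((J36S str).trans hsb ((J36S str).symm h))

theorem J36_small (Lg : Finset (Fin N)) (π : Z N → ℕ) (str : List (Z N × FN N × Z N))
    (hstr : ∀ s ∈ str, s.1.1 ∉ Lg ∧ s.2.2.1 ∉ Lg ∧ π s.1 = π s.2.2) {α β : Z N}
    (h : (J36S str) α β) : α = β ∨ (α.1 ∉ Lg ∧ β.1 ∉ Lg ∧ π α = π β) := by
  have h' : Relation.EqvGen (J36R str) α β := h
  clear h
  induction h' with
  | rel x y hxy =>
    obtain ⟨s, hs, rfl, rfl⟩ := hxy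
    exact Or.inr (hstr s hs)
  | refl x => exact Or.inl rfl
  | symm x y _ ih =>
    rcases ih with ih | ⟨a, b, c⟩
    · exact Or.inl ih.symm
    · exact Or.inr ⟨b, a, c.symm⟩
  | trans x y z _ _ ih1 ih2 =>
    rcases ih1 with rfl | ⟨a, b, c⟩
    · exact ih2
    · rcases ih2 with rfl | ⟨a', b', c'⟩
      · exact Or.inr ⟨a, b, c⟩
      · exact Or.inr ⟨a, b', c.trans c'⟩

theorem J36_letters (Lg : Finset (Fin N)) (π : Z N → ℕ) (hl : Loops Lg π) (a b : FN N) (p : ℕ)
    (ha : ∀ x ∈ a.toWord, x.1 ∈ Lg ∧ π x = p) (hb : ∀ x ∈ b.toWord, x.1 ∈ Lg ∧ π x = p) :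
    ∀ x ∈ (a⁻¹ * b).toWord, x.1 ∈ Lg ∧ π x = p := by
  intro x hx
  have h1 := (FreeGroup.toWord_mul_sublist a⁻¹ b).subset hx
  rw [List.mem_append] at h1
  rcases h1 with h1 | h1
  · rw [FreeGroup.toWord_inv] at h1
    unfold FreeGroup.invRev at h1
    rw [List.mem_reverse, List.mem_map] at h1
    obtain ⟨y, hy, rfl⟩ := h1
    obtain ⟨hy1, hy2⟩ := ha y hy
    refine ⟨hy1, ?_⟩
    rw [← hy2]
    obtain ⟨i, c⟩ := y
    have := hl i hy1
    cases c
    · exact this
    · exact this.symm
  · exact hb x h1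

theorem J36_closed (str : List (Z N × FN N × Z N)) (U : Finset (Z N))
    (hU : leav str (fun _ => 1) U = 0) :
    ∀ s ∈ str, (s.1 ∈ U → s.2.2 ∈ U ∧ s.2.1 = 1) ∧ (s.2.2 ∈ U → s.1 ∈ U ∧ s.2.1 = 1) := by
  classical
  unfold leav at hU
  rw [Nat.add_eq_zero_iff, List.countP_eq_zero, List.countP_eq_zero] at hU
  intro s hs
  have h1 := hU.1 s hs
  have h2 := hU.2 s hs
  simp only [inv_one, one_mul, mul_one, decide_eq_true_eq] at h1 h2
  constructor
  · intro a
    tauto
  · intro a
    tauto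

theorem J36_comp (str : List (Z N × FN N × Z N)) (U : Finset (Z N))
    (hU : leav str (fun _ => 1) U = 0) {α β : Z N} (h : (J36S str) α β) : α ∈ U ↔ β ∈ U := by
  have h' : Relation.EqvGen (J36R str) α β := h
  clear h
  induction h' with
  | rel x y hxy =>
    obtain ⟨s, hs, rfl, rfl⟩ := hxy
    have h1 := J36_closed str U hU s hs
    exact ⟨fun h => (h1.1 h).1, fun h => (h1.2 h).1⟩
  | refl x => exact Iff.rfl
  | symm x y _ ih => exact ih.symm
  | trans x y z _ _ ih1 ih2 => exact ih1.trans ih2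

/-- the slide can be normalised on the components without ends -/
theorem J36_normalise (Lg : Finset (Fin N)) (π : Z N → ℕ) (hl : Loops Lg π) (T : ℕ)
    (str : List (Z N × FN N × Z N))
    (hstr : ∀ s ∈ str, s.1.1 ∉ Lg ∧ s.2.2.1 ∉ Lg ∧ π s.1 = π s.2.2)
    (h : Z N → FN N) (hA : Adm Lg π h) (hT : ∀ α, (h α).norm ≤ T) :
    ∃ h' : Z N → FN N, Adm Lg π h' ∧ (∀ α, (h' α).norm ≤ 2 * T) ∧
      (∀ s ∈ str, (h' s.1)⁻¹ * s.2.1 * h' s.2.2 = (h s.1)⁻¹ * s.2.1 * h s.2.2) ∧
      ∀ U : Finset (Z N), U.Nonempty → (∀ α ∈ U, α.1 ∉ Lg) →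
        leav str (fun _ => 1) U = 0 → ∃ α ∈ U, h' α = 1 := by
  classical
  let h' : Z N → FN N := fun α => if J36G str α then (h (J36r str α))⁻¹ * h α else h α
  have hpos : ∀ α, J36G str α → h' α = (h (J36r str α))⁻¹ * h α := fun α hg => if_pos hg
  have hneg : ∀ α, ¬ J36G str α → h' α = h α := fun α hg => if_neg hg
  refine ⟨h', ?_, ?_, ?_, ?_⟩
  · intro α
    by_cases hg : J36G str α
    · rw [hpos α hg]
      rcases J36_small Lg π str hstr (J36_rr str α) with he | ⟨h1, h2, h3⟩
      · rw [he, inv_mul_cancel]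
        refine ⟨fun _ => rfl, ?_⟩
        intro x hx
        rw [FreeGroup.toWord_one] at hx
        exact absurd hx List.not_mem_nil
      · refine ⟨fun hα => absurd hα h2, ?_⟩
        apply J36_letters Lg π hl _ _ (π α)
        · intro x hx
          have := (hA (J36r str α)).2 x hx
          rw [h3] at this
          exact this
        · exact (hA α).2
    · rw [hneg α hg]
      exact hA α
  · intro α
    by_cases hg : J36G str α
    · rw [hpos α hg]
      have h1 := FreeGroup.norm_mul_le (h (J36r str α))⁻¹ (h α)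
      rw [FreeGroup.norm_inv_eq] at h1
      have h2 := hT α
      have h3 := hT (J36r str α)
      omega
    · rw [hneg α hg]
      have := hT α
      omega
  · intro s hs
    have hrel : (J36S str) s.1 s.2.2 := Relation.EqvGen.rel _ _ ⟨s, hs, rfl, rfl⟩
    by_cases hg : J36G str s.1
    · have hg2 := J36_Geq str hrel hg
      have h1 : s.2.1 = 1 := hg s hs ((J36S str).refl _)
      rw [hpos _ hg, hpos _ hg2, ← J36_req str hrel, h1]
      group
    · have hg2 : ¬ J36G str s.2.2 := fun h => hg (J36_Geq str ((J36S str).symm hrel) h)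
      rw [hneg _ hg, hneg _ hg2]
  · intro U hU _ hlv
    obtain ⟨α, hα⟩ := hU
    have hg : J36G str α := by
      intro s hs hsα
      have h1 : s.1 ∈ U := (J36_comp str U hlv hsα).mpr hα
      exact ((J36_closed str U hlv s hs).1 h1).2
    have hr := J36_rr str α
    refine ⟨J36r str α, (J36_comp str U hlv hr).mpr hα, ?_⟩
    rw [hpos _ (J36_Geq str ((J36S str).symm hr) hg), J36_req str hr, inv_mul_cancel]

end PW
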