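import Pool.Agent.Helper423.PW.Defs

set_option autoImplicit false

namespace PW
variable {N : ℕ}


theorem J37_sum_deg (L : List (Z N)) : ∑ i : Fin N, deg L i = L.length := by
  induction L with
  | nil => simp [deg]
  | cons x L ih =>
    have h : ∀ i : Fin N, deg (x :: L) i = deg L i + (if x.1 = i then 1 else 0) := by
      intro i
      unfold deg
      rw [List.countP_cons]
      simp
    simp only [h, Finset.sum_add_distrib, ih, List.length_cons]
    simp

end PW
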