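import Pool.Agent.Helper423.PW.Defs
import Pool.Agent.Helper423.PW.P_J01_cyc_fst
import Pool.Agent.Helper423.PW.P_J02_cyc_snd

set_option autoImplicit false

namespace PW
variable {N : ℕ}


theorem cyc_map_aux {α β : Type} (F : α → β) (l : List α) :
    cyc (l.map F) = (cyc l).map (Prod.map F F) := by
  unfold cyc
  rw [← List.map_rotate, List.zip_map]

theorem cyc_cyc_aux {α : Type} (S : List α) :
    (cyc (cyc S)).map (fun q => (q.1, q.2.1)) = (cyc S).map (fun p => (p, p.2)) := by
  have h1 : (cyc (cyc S)).map (fun q => (q.1, q.2.1)) =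
      List.zip (cyc S) ((S).rotate 1) := by
    have h2 : (fun q : (α × α) × (α × α) => (q.1, q.2.1)) = Prod.map id Prod.fst := by
      funext q
      rfl
    rw [h2]
    conv_lhs => unfold cyc
    rw [← List.zip_map_right]
    have h3 : List.map Prod.fst ((cyc S).rotate 1) = S.rotate 1 := by
      rw [List.map_rotate, J01_cyc_fst]
    unfold cyc at h3 ⊢
    rw [h3]
  rw [h1]
  conv_lhs => rw [← J02_cyc_snd S]
  have h4 : List.zip (cyc S) (List.map Prod.snd (cyc S)) =
      List.zip (List.map id (cyc S)) (List.map Prod.snd (cyc S)) := by rw [List.map_id]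
  rw [h4, List.zip_map']
  rfl

theorem J21_act_strs (h : Z N → FN N) (S : List (Z N × List (Z N))) :
    strs (act h S) = (strs S).map (fun s => (s.1, (h s.1)⁻¹ * s.2.1 * h s.2.2, s.2.2)) := by
  have h1 := congrArg (List.map (fun r : ((Z N × List (Z N)) × (Z N × List (Z N))) × (Z N × List (Z N)) =>
    ((inv r.1.1.1, (h (inv r.1.1.1))⁻¹ * FreeGroup.mk r.1.1.2 * h r.1.2.1, r.2.1) :
      Z N × FN N × Z N))) (cyc_cyc_aux S)
  rw [List.map_map, List.map_map] at h1
  unfold strs act
  rw [cyc_map_aux, List.map_map, List.map_map]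
  refine Eq.trans ?_ (h1.trans ?_)
  · refine List.map_congr_left (fun q _ => ?_)
    simp only [Function.comp, Prod.map, FreeGroup.mk_toWord]
  · rfl

end PW
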