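import Pool.Agent.Helper423.PW.Defs
import Pool.Agent.Helper423.PW.P_J21_act_strs

set_option autoImplicit false

namespace PW
variable {N : ℕ}


theorem J38_leav_act (h : Z N → FN N) (S : List (Z N × List (Z N))) (U : Finset (Z N)) :
    leav (strs (act h S)) (fun _ => 1) U = leav (strs S) h U := by
  unfold leav
  rw [J21_act_strs, List.countP_map, List.countP_map]
  simp only [Function.comp_def, inv_one, one_mul, mul_one]

end PW
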