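import Pool.Agent.Helper423.PW.Defs

set_option autoImplicit false

namespace PW
variable {N : ℕ}


theorem J39_act_congr (h h' : Z N → FN N) (S : List (Z N × List (Z N)))
    (hv : ∀ s ∈ strs S, (h' s.1)⁻¹ * s.2.1 * h' s.2.2 = (h s.1)⁻¹ * s.2.1 * h s.2.2) :
    act h' S = act h S ∧ fS (strs S) h' = fS (strs S) h := by
  constructor
  · unfold act
    refine List.map_congr_left fun p hp => ?_
    have h1 := hv (inv p.1.1, FreeGroup.mk p.1.2, p.2.1)
      (List.mem_map.2 ⟨p, hp, rfl⟩)
    simp only at h1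
    rw [h1]
  · unfold fS
    congr 1
    refine List.map_congr_left fun s hs => ?_
    rw [hv s hs]

end PW
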