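import Pool.Agent.Helper423.PW.Defs

set_option autoImplicit false

namespace PW
variable {N : ℕ}


theorem J40_small_of_tn (Lg : Finset (Fin N)) (L : List (Z N)) (A C : Finset (Z N))
    (hA : ∀ α ∈ A, α.1 ∉ Lg) (h : tn L A C ≠ 0) : ∃ x ∈ L, x.1 ∉ Lg := by
  have h1 : 0 < tn L A C := Nat.pos_of_ne_zero h
  unfold tn at h1
  rw [List.countP_pos_iff] at h1
  obtain ⟨t, ht, hp⟩ := h1
  have hp' : (t.1 ∈ A ∧ t.2 ∈ C) ∨ (t.1 ∈ C ∧ t.2 ∈ A) := by simpa using hp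
  unfold turns at ht
  have ht' : (t.1, t.2) ∈ List.zip (L.map inv) (L.rotate 1) := ht
  obtain ⟨m1, m2⟩ := List.of_mem_zip ht'
  rcases hp' with ⟨hp, _⟩ | ⟨_, hp⟩
  · obtain ⟨x, hx, hxt⟩ := List.mem_map.1 m1
    refine ⟨x, hx, ?_⟩
    have h2 := hA _ hp
    rw [← hxt] at h2
    exact h2
  · exact ⟨t.2, List.mem_rotate.1 m2, hA _ hp⟩

end PW
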