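import Pool.Agent.Helper693.PW.Defs

set_option autoImplicit false

namespace PW

variable {N : ℕ}


/-- free group of rank `N` -/
abbrev FN (N : ℕ) := FreeGroup (Fin N)

/-- admissible slides: small half-edges move by words in the large loops at their vertex -/
def Adm (Lg : Finset (Fin N)) (π : Z N → ℕ) (h : Z N → FN N) : Prop :=
  ∀ α, (α.1 ∈ Lg → h α = 1) ∧ ∀ x ∈ (h α).toWord, x.1 ∈ Lg ∧ π x = π α

/-- the slide automorphism `x ↦ h x * x * (h (inv x))⁻¹` -/
def sig (h : Z N → FN N) : FN N →* FN N :=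
  FreeGroup.lift (fun i => h (i, true) * FreeGroup.of i * (h (i, false))⁻¹)

/-- `L` arises from (the class of) `L0` by a slide of size at most `T` -/
def Desc (Lg : Finset (Fin N)) (π : Z N → ℕ) (T : ℕ) (L L0 : List (Z N)) : Prop :=
  ∃ h, Adm Lg π h ∧ (∀ α, (h α).norm ≤ T) ∧ IsConj (FreeGroup.mk L) (sig h (FreeGroup.mk L0))

/-- total length of the strands after the slide `h` -/
def fS (str : List (Z N × FN N × Z N)) (h : Z N → FN N) : ℕ :=
  (str.map (fun s => ((h s.1)⁻¹ * s.2.1 * h s.2.2).norm)).sum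

/-- number of strand ends leaving `U` -/
def leav (str : List (Z N × FN N × Z N)) (h : Z N → FN N) (U : Finset (Z N)) : ℕ :=
  by
    classical
    exact str.countP (fun s => s.1 ∈ U ∧ ¬ (s.2.2 ∈ U ∧ (h s.1)⁻¹ * s.2.1 * h s.2.2 = 1)) +
      str.countP (fun s => s.2.2 ∈ U ∧ ¬ (s.1 ∈ U ∧ (h s.1)⁻¹ * s.2.1 * h s.2.2 = 1))

/-- cyclic pairs of consecutive elements -/
def cyc {α : Type} (S : List α) : List (α × α) := List.zip S (S.rotate 1)

/-- the cyclic word of a list of blocks (small letter, word in the large letters) -/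
def W (S : List (Z N × List (Z N))) : List (Z N) := S.flatMap (fun b => b.1 :: b.2)

/-- the strands of a list of blocks -/
def strs (S : List (Z N × List (Z N))) : List (Z N × FN N × Z N) :=
  (cyc S).map (fun p => (inv p.1.1, FreeGroup.mk p.1.2, p.2.1))

/-- the slide `h` on blocks -/
def act (h : Z N → FN N) (S : List (Z N × List (Z N))) : List (Z N × List (Z N)) :=
  (cyc S).map (fun p => (p.1.1, ((h (inv p.1.1))⁻¹ * FreeGroup.mk p.1.2 * h p.2.1).toWord))

/-- well formed list of blocks: small letters, reduced words in large letters of the right vertex -/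
structure BOK (Lg : Finset (Fin N)) (π : Z N → ℕ) (S : List (Z N × List (Z N))) : Prop where
  ne : S ≠ []
  small : ∀ b ∈ S, b.1.1 ∉ Lg
  red : ∀ b ∈ S, FreeGroup.IsReduced b.2
  large : ∀ b ∈ S, ∀ x ∈ b.2, x.1 ∈ Lg ∧ π x = π (inv b.1)
  cpath : ∀ p ∈ cyc S, π (inv p.1.1) = π p.2.1
  turn : ∀ p ∈ cyc S, p.1.2 = [] → inv p.1.1 ≠ p.2.1

/-- `π` is constant on large loops -/
def Loops (Lg : Finset (Fin N)) (π : Z N → ℕ) : Prop := ∀ i ∈ Lg, π (i, true) = π (i, false)

/-- the turns of `l` followed by the letter `z` -/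
def lin (l : List (Z N)) (z : Z N) : List (Z N × Z N) := List.zip (l.map inv) (l.tail ++ [z])


end PW
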