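import Pool.Agent.Helper423.PW.Defs
import Pool.Agent.Helper423.PW.P_J01_cyc_fst
import Pool.Agent.Helper423.PW.P_J02_cyc_snd
import Pool.Agent.Helper423.PW.P_J03_turns_W
import Pool.Agent.Helper423.PW.P_J04_turns_rot
import Pool.Agent.Helper423.PW.P_J05_conj_rot
import Pool.Agent.Helper423.PW.P_J06_blocks
import Pool.Agent.Helper423.PW.P_J07_BOK_of
import Pool.Agent.Helper423.PW.P_J08_tight
import Pool.Agent.Helper423.PW.P_J09_path
import Pool.Agent.Helper423.PW.P_J10_tight_iff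
import Pool.Agent.Helper423.PW.P_J11_norm_pow
import Pool.Agent.Helper423.PW.P_J12_len_eq
import Pool.Agent.Helper423.PW.P_J13_sig_lt
import Pool.Agent.Helper423.PW.P_J14_sig_fix
import Pool.Agent.Helper423.PW.P_J15_adm_mul
import Pool.Agent.Helper423.PW.P_J16_adm_inv
import Pool.Agent.Helper423.PW.P_J17_sig_comp
import Pool.Agent.Helper423.PW.P_J18_sig_one
import Pool.Agent.Helper423.PW.P_J19_sig_equiv
import Pool.Agent.Helper423.PW.P_J20_orb
import Pool.Agent.Helper423.PW.P_J21_act_strs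
import Pool.Agent.Helper423.PW.P_J22_act_length
import Pool.Agent.Helper423.PW.P_J23_act_conj
import Pool.Agent.Helper423.PW.P_J24_act_BOK
import Pool.Agent.Helper423.PW.P_J25_act_deg
import Pool.Agent.Helper423.PW.P_J26_len_one
import Pool.Agent.Helper423.PW.P_J27_cap
import Pool.Agent.Helper423.PW.P_J28_one_strand
import Pool.Agent.Helper423.PW.P_J29_slide
import Pool.Agent.Helper423.PW.P_J30_deg_slide
import Pool.Agent.Helper423.PW.P_J31_good_rot
import Pool.Agent.Helper423.PW.P_J32_tn_rot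
import Pool.Agent.Helper423.PW.P_J33_deg_rot
import Pool.Agent.Helper423.PW.P_J34_k_le
import Pool.Agent.Helper423.PW.P_J35_all_large
import Pool.Agent.Helper423.PW.P_J36_normalise
import Pool.Agent.Helper423.PW.P_J37_sum_deg
import Pool.Agent.Helper423.PW.P_J38_leav_act
import Pool.Agent.Helper423.PW.P_J39_act_congr
import Pool.Agent.Helper423.PW.P_J40_small_of_tn
import Pool.Agent.Helper497.SE.List

set_option autoImplicit false

namespace PW

variable {N : ℕ}

theorem Loops.pi_inv {Lg : Finset (Fin N)} {π : Z N → ℕ} (hl : Loops Lg π) {x : Z N}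
    (hx : x.1 ∈ Lg) : π (inv x) = π x := by
  obtain ⟨i, b⟩ := x
  have := hl i hx
  cases b
  · simpa [inv] using this
  · simpa [inv] using this.symm

theorem desc_orb (Lg : Finset (Fin N)) (π : Z N → ℕ) (T : ℕ) (L L0 : List (Z N)) (u : FN N)
    (hl : Loops Lg π) (hd : Desc Lg π T L L0) (hu : Orb u L) : Orb u L0 := by
  obtain ⟨h, hA, -, hc⟩ := hd
  have hA' := J16_adm_inv Lg π hl h hA
  refine J20_orb Lg π hl (fun α => (h α)⁻¹) hA' u L L0 hu ?_
  have h1 : IsConj (sig (fun α => (h α)⁻¹) (FreeGroup.mk L))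
      (sig (fun α => (h α)⁻¹) (sig h (FreeGroup.mk L0))) :=
    MonoidHom.map_isConj _ hc
  rw [J17_sig_comp Lg π (fun α => (h α)⁻¹) h hA' hA] at h1
  have h2 : sig (fun α => h α * (h α)⁻¹) (FreeGroup.mk L0) = FreeGroup.mk L0 := by
    have : (fun α => h α * (h α)⁻¹) = (fun _ => (1 : FN N)) := by
      funext α; simp
    rw [this, J18_sig_one]
  rw [h2] at h1
  exact h1.symm

theorem desc_congr (Lg : Finset (Fin N)) (π : Z N → ℕ) (T : ℕ) (L L0 L0' : List (Z N))
    (hc : IsConj (FreeGroup.mk L0) (FreeGroup.mk L0')) (hd : Desc Lg π T L L0) :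
    Desc Lg π T L L0' := by
  obtain ⟨h, hA, hT, hcj⟩ := hd
  exact ⟨h, hA, hT, hcj.trans (MonoidHom.map_isConj _ hc)⟩

theorem adm_one (Lg : Finset (Fin N)) (π : Z N → ℕ) : Adm Lg π (fun _ => 1) := by
  intro α
  refine ⟨fun _ => rfl, ?_⟩
  intro x hx
  simp [FreeGroup.toWord_one] at hx

theorem adm_elem (Lg : Finset (Fin N)) (π : Z N → ℕ) (y : Z N) (hy : y.1 ∈ Lg)
    (A : Finset (Z N)) (hA : ∀ α ∈ A, α.1 ∉ Lg ∧ π α = π y) :
    Adm Lg π (fun α => if α ∈ A then lt y else 1) := by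
  intro α
  constructor
  · intro hα
    have : α ∉ A := fun h => (hA α h).1 hα
    simp [this]
  · intro x hx
    by_cases h : α ∈ A
    · simp only [h, if_true] at hx
      have hw : (lt y).toWord = [y] := by
        unfold lt
        rw [FreeGroup.toWord_mk]
        simp
      rw [hw] at hx
      have hxy : x = y := by simpa using hx
      subst hxy
      exact ⟨hy, (hA α h).2.symm⟩
    · simp [h, FreeGroup.toWord_one] at hx

theorem norm_lt_le (y : Z N) : (lt y).norm ≤ 1 := by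
  unfold lt
  simpa using FreeGroup.norm_mk_le (L₁ := [y])

/-- one descending slide -/
theorem slide_one (Lg : Finset (Fin N)) (π : Z N → ℕ) (B : ℕ) (L : List (Z N))
    (hG : Good L Lg π B) (hn : ¬ NoSlide L Lg π) :
    ∃ L1 h, Good L1 Lg π B ∧ L1.length < L.length ∧ (∀ i, deg L1 i ≤ deg L i) ∧
      (∀ i, i ∉ Lg → deg L1 i = deg L i) ∧ Adm Lg π h ∧ (∀ α, (h α).norm ≤ 1) ∧
      IsConj (FreeGroup.mk L1) (sig h (FreeGroup.mk L)) := by
  classical
  have hl : Loops Lg π := hG.loop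
  unfold NoSlide at hn
  push Not at hn
  obtain ⟨y, A, hy, hA, hlt⟩ := hn
  obtain ⟨x, hxL, hx⟩ := J40_small_of_tn Lg L A {y} (fun α hα => (hA α hα).1) (by omega)
  obtain ⟨S, hne, hrot, hs1, hs2⟩ := J06_blocks Lg L ⟨x, hxL, hx⟩
  have hGW : Good (W S) Lg π B := J31_good_rot L (W S) Lg π B hrot hG
  have hS : BOK Lg π S := J07_BOK_of Lg π hl S hne hs1 hs2 hGW.tight hGW.path
  set h : Z N → FN N := fun α => if α ∈ A then lt y else 1 with hh
  have hAdm : Adm Lg π h := adm_elem Lg π y hy A hA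
  have hS' : BOK Lg π (act h S) := J24_act_BOK Lg π hl h hAdm S hS
  have hsl := J29_slide Lg π hl S hS y hy A hA
  have htn1 : tn L A {y} = tn (W S) A {y} := J32_tn_rot L (W S) hrot A {y}
  have htn2 : tn L A (blk π (π y) \ (insert y A)) = tn (W S) A (blk π (π y) \ (insert y A)) :=
    J32_tn_rot L (W S) hrot A _
  have hlen0 : L.length = (W S).length := hrot.perm.length_eq
  have hlen1 : (W S).length = S.length + fS (strs S) (fun _ => 1) := J26_len_one Lg π S hS
  have hlen2 : (W (act h S)).length = S.length + fS (strs S) h := J22_act_length h S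
  have hlt' : (W (act h S)).length < L.length := by
    have : (fS (strs S) h : ℤ) + tn (W S) A {y} =
      fS (strs S) (fun _ => 1) + tn (W S) A (blk π (π y) \ (insert y A)) := hsl
    omega
  have hdeg : ∀ i, i ≠ y.1 → deg (W (act h S)) i = deg L i := by
    intro i hi
    rw [J33_deg_rot L (W S) hrot i]
    exact J30_deg_slide Lg π S hS y A i hi
  have hdegy : deg (W (act h S)) y.1 ≤ deg L y.1 := by
    have e1 := J37_sum_deg (W (act h S))
    have e2 := J37_sum_deg L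
    rw [← Finset.add_sum_erase _ _ (Finset.mem_univ y.1)] at e1 e2
    have e3 : ∑ i ∈ Finset.univ.erase y.1, deg (W (act h S)) i =
        ∑ i ∈ Finset.univ.erase y.1, deg L i :=
      Finset.sum_congr rfl (fun i hi => hdeg i (Finset.ne_of_mem_erase hi))
    omega
  have hdall : ∀ i, deg (W (act h S)) i ≤ deg L i := by
    intro i
    by_cases hi : i = y.1
    · rw [hi]; exact hdegy
    · exact (hdeg i hi).le
  have hdsm : ∀ i, i ∉ Lg → deg (W (act h S)) i = deg L i := by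
    intro i hi
    apply hdeg
    rintro rfl
    exact hi hy
  refine ⟨W (act h S), h, ?_, hlt', hdall, hdsm, hAdm, ?_, ?_⟩
  · refine ⟨?_, J08_tight Lg π _ hS', J09_path Lg π hl _ hS', hl, ?_⟩
    · intro h0
      have : (W (act h S)).length = 0 := by rw [h0]; rfl
      have h3 : S.length = 0 := by omega
      exact hne (List.length_eq_zero_iff.mp h3)
    · intro i hi
      rw [hdsm i hi]
      exact hG.small i hi
  · intro α
    simp only [hh]
    split_ifs
    · exact norm_lt_le y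
    · simp
  · exact (J23_act_conj Lg π h hAdm S hS).trans
      (MonoidHom.map_isConj _ (J05_conj_rot L (W S) hrot).symm)

theorem slide_descent (Lg : Finset (Fin N)) (π : Z N → ℕ) (B : ℕ) (L : List (Z N))
    (hG : Good L Lg π B) : ∃ L0, Good L0 Lg π B ∧ NoSlide L0 Lg π ∧ L0.length ≤ L.length ∧
      (∀ i, deg L0 i ≤ deg L i) ∧ (∀ i, i ∉ Lg → deg L0 i = deg L i) ∧
      Desc Lg π (L.length - L0.length) L L0 := by
  induction hn : L.length using Nat.strong_induction_on generalizing L with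
  | _ n ih =>
  subst hn
  have hl : Loops Lg π := hG.loop
  by_cases hs : NoSlide L Lg π
  · refine ⟨L, hG, hs, le_refl _, fun _ => le_refl _, fun _ _ => rfl, fun _ => 1,
      adm_one Lg π, ?_, ?_⟩
    · intro α; simp
    · rw [J18_sig_one]
  · obtain ⟨L1, h1, hG1, hlt, hd1, hd2, hA1, hn1, hc1⟩ := slide_one Lg π B L hG hs
    obtain ⟨L0, hG0, hs0, hle, hd3, hd4, h2, hA2, hn2, hc2⟩ := ih L1.length hlt L1 hG1 rfl
    refine ⟨L0, hG0, hs0, by omega, fun i => (hd3 i).trans (hd1 i),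
      fun i hi => (hd4 i hi).trans (hd2 i hi), fun α => h2 α * (h1 α)⁻¹, ?_, ?_, ?_⟩
    · exact J15_adm_mul Lg π h2 (fun α => (h1 α)⁻¹) hA2 (J16_adm_inv Lg π hl h1 hA1)
    · intro α
      change (h2 α * (h1 α)⁻¹).norm ≤ _
      have e1 := FreeGroup.norm_mul_le (h2 α) (h1 α)⁻¹
      have e2 := hn1 α
      have e3 := hn2 α
      rw [FreeGroup.norm_inv_eq] at e1
      omega
    · have hA1' := J16_adm_inv Lg π hl h1 hA1
      have e1 : IsConj (sig h1 (FreeGroup.mk L)) (sig h2 (FreeGroup.mk L0)) := hc1.symm.trans hc2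
      have e2 := MonoidHom.map_isConj (sig (fun α => (h1 α)⁻¹)) e1
      rw [J17_sig_comp Lg π (fun α => (h1 α)⁻¹) h1 hA1' hA1,
        J17_sig_comp Lg π (fun α => (h1 α)⁻¹) h2 hA1' hA2] at e2
      have h3 : sig (fun α => h1 α * (h1 α)⁻¹) (FreeGroup.mk L) = FreeGroup.mk L := by
        have : (fun α => h1 α * (h1 α)⁻¹) = (fun _ => (1 : FN N)) := by
          funext α; simp
        rw [this, J18_sig_one]
      rw [h3] at e2
      exact e2


/-- exponent of the polynomial factor -/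
def EN (N : ℕ) : ℕ := 2 * N * ((2 * N * (2 * N) + 1) * (2 * (2 * N)) + 2 * N * (2 * N) + 1) + 2 * N

/-- bound for the number of classes that descend to one slide-minimal word -/
def slideBound (N B Δ m : ℕ) : ℕ :=
  ((2 * Δ + 2) * (2 * N * B + 2 * N + 2)) ^ (EN N) * (2 * m - 1) ^ (Δ / 2)

theorem strs_mem {S : List (Z N × List (Z N))} {s : Z N × FN N × Z N} (hs : s ∈ strs S) :
    ∃ p ∈ cyc S, s = (inv p.1.1, FreeGroup.mk p.1.2, p.2.1) := by
  unfold strs at hs
  obtain ⟨p, hp, rfl⟩ := List.mem_map.mp hs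
  exact ⟨p, hp, rfl⟩

theorem cyc_mem {S : List (Z N × List (Z N))} {p : (Z N × List (Z N)) × (Z N × List (Z N))}
    (hp : p ∈ cyc S) : p.1 ∈ S ∧ p.2 ∈ S := by
  have h1 : p.1 ∈ (cyc S).map Prod.fst := List.mem_map_of_mem hp
  have h2 : p.2 ∈ (cyc S).map Prod.snd := List.mem_map_of_mem hp
  rw [J01_cyc_fst] at h1
  rw [J02_cyc_snd] at h2
  exact ⟨h1, List.mem_rotate.mp h2⟩

theorem strs_length (S : List (Z N × List (Z N))) : (strs S).length = S.length := by
  have := congrArg List.length (J01_cyc_fst S)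
  simpa [strs] using this

theorem toWord_mk_red {w : List (Z N)} (hw : FreeGroup.IsReduced w) :
    (FreeGroup.mk w).toWord = w := by
  rw [FreeGroup.toWord_mk]
  exact hw.reduce_eq

theorem hstr_of (Lg : Finset (Fin N)) (π : Z N → ℕ) (S : List (Z N × List (Z N)))
    (hS : BOK Lg π S) : ∀ s ∈ strs S, s.1.1 ∉ Lg ∧ s.2.2.1 ∉ Lg ∧ π s.1 = π s.2.2 ∧
      ∀ x ∈ s.2.1.toWord, x.1 ∈ Lg ∧ π x = π s.1 := by
  intro s hs
  obtain ⟨p, hp, rfl⟩ := strs_mem hs
  obtain ⟨h1, h2⟩ := cyc_mem hp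
  refine ⟨hS.small _ h1, hS.small _ h2, hS.cpath _ hp, ?_⟩
  intro x hx
  have hx' : x ∈ p.1.2 := by
    have := toWord_mk_red (hS.red _ h1)
    simpa [this] using hx
  exact hS.large _ h1 x hx'

theorem bound_le_aux (N B Δ k E1 Q : ℕ) (hN : 1 ≤ N) (hk : k ≤ N * B) :
    ((2 * Δ + 1) * (2 * k + 2*N + 1) ^ (2*N)) ^ E1 * (2 ^ (2*N) * Q) ≤
      ((2 * Δ + 2) * (2 * N * B + 2 * N + 2)) ^ (2 * N * E1 + 2 * N) * Q := by
  have hX : 2 * k + 2 * N + 1 ≤ 2 * N * B + 2 * N + 2 := by nlinarith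
  have h1 : (2 * Δ + 1) ≤ (2 * Δ + 2) ^ (2 * N) :=
    calc 2 * Δ + 1 ≤ 2 * Δ + 2 := by omega
      _ = (2 * Δ + 2) ^ 1 := (pow_one _).symm
      _ ≤ (2 * Δ + 2) ^ (2 * N) := Nat.pow_le_pow_right (by omega) (by omega)
  have h2 : (2 * k + 2*N + 1) ^ (2*N) ≤ (2 * N * B + 2 * N + 2) ^ (2 * N) :=
    Nat.pow_le_pow_left hX _
  have h3 : (2 * Δ + 1) * (2 * k + 2*N + 1) ^ (2*N) ≤
      ((2 * Δ + 2) * (2 * N * B + 2 * N + 2)) ^ (2 * N) := by
    rw [mul_pow]; exact Nat.mul_le_mul h1 h2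
  have h4 : ((2 * Δ + 1) * (2 * k + 2*N + 1) ^ (2*N)) ^ E1 ≤
      ((2 * Δ + 2) * (2 * N * B + 2 * N + 2)) ^ (2 * N * E1) := by
    rw [pow_mul ((2 * Δ + 2) * (2 * N * B + 2 * N + 2)) (2 * N) E1]; exact Nat.pow_le_pow_left h3 _
  have h5 : 2 ^ (2 * N) ≤ ((2 * Δ + 2) * (2 * N * B + 2 * N + 2)) ^ (2 * N) :=
    Nat.pow_le_pow_left (by nlinarith) _
  calc ((2 * Δ + 1) * (2 * k + 2*N + 1) ^ (2*N)) ^ E1 * (2 ^ (2*N) * Q)
      = (((2 * Δ + 1) * (2 * k + 2*N + 1) ^ (2*N)) ^ E1 * 2 ^ (2*N)) * Q := by ring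
    _ ≤ (((2 * Δ + 2) * (2 * N * B + 2 * N + 2)) ^ (2 * N * E1) *
          ((2 * Δ + 2) * (2 * N * B + 2 * N + 2)) ^ (2 * N)) * Q :=
        Nat.mul_le_mul_right _ (Nat.mul_le_mul h4 h5)
    _ = _ := by rw [← pow_add]

theorem bound_le (N B Δ m k : ℕ) (hN : 1 ≤ N) (hk : k ≤ N * B) :
    ((2 * Δ + 1) * (2 * k + 2*N + 1) ^ (2*N)) ^
      ((2*N * (2*N) + 1) * (2 * (2*N)) + 2*N * (2*N) + 1) *
        (2 ^ (2*N) * (2 * m - 1) ^ (Δ / 2)) ≤ slideBound N B Δ m :=
  bound_le_aux N B Δ k _ _ hN hk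

theorem slide_count (Lg : Finset (Fin N)) (π : Z N → ℕ) (B : ℕ) (hne : Lg.Nonempty) (u : FN N)
    (hcap : ∀ L, Orb u L → Tight L → L ≠ [] → ∀ A, cap L A ≠ 1) (L0 : List (Z N))
    (hG : Good L0 Lg π B) (hn : NoSlide L0 Lg π) (hu : Orb u L0) (Δ : ℕ) :
    {c : ConjClasses (FN N) | ∃ L, Tight L ∧ L.length = L0.length + Δ ∧ Desc Lg π Δ L L0 ∧
      c = ConjClasses.mk (FreeGroup.mk L)}.Finite ∧
    {c : ConjClasses (FN N) | ∃ L, Tight L ∧ L.length = L0.length + Δ ∧ Desc Lg π Δ L L0 ∧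
      c = ConjClasses.mk (FreeGroup.mk L)}.ncard ≤ slideBound N B Δ Lg.card := by
  classical
  have hl : Loops Lg π := hG.loop
  by_cases hsm : ∃ x ∈ L0, x.1 ∉ Lg
  · obtain ⟨S, hSne, hrot, hs1, hs2⟩ := J06_blocks Lg L0 hsm
    have hGW : Good (W S) Lg π B := J31_good_rot L0 (W S) Lg π B hrot hG
    have hS : BOK Lg π S := J07_BOK_of Lg π hl S hSne hs1 hs2 hGW.tight hGW.path
    have hlen0 : L0.length = (W S).length := hrot.perm.length_eq
    have hlen1 : (W S).length = S.length + fS (strs S) (fun _ => 1) := J26_len_one Lg π S hS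
    have huW : Orb u (W S) := by
      obtain ⟨φ, hφ⟩ := hu
      exact ⟨φ, hφ.trans (J05_conj_rot L0 (W S) hrot)⟩
    have hMin : ∀ y : Z N, y.1 ∈ Lg → ∀ U : Finset (Z N), (∀ α ∈ U, α.1 ∉ Lg ∧ π α = π y) →
        fS (strs S) (fun _ => 1) ≤ fS (strs S) (fun α => if α ∈ U then lt y else 1) := by
      intro y hy U hU
      have h1 := J29_slide Lg π hl S hS y hy U hU
      have h2 := hn y U hy hU
      rw [J32_tn_rot L0 (W S) hrot U {y}, J32_tn_rot L0 (W S) hrot U _] at h2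
      omega
    have hNP : ∀ h, Adm Lg π h → ∀ U : Finset (Z N), (∀ α ∈ U, α.1 ∉ Lg) →
        leav (strs S) h U ≠ 1 := by
      intro h hA U hU
      have hS' : BOK Lg π (act h S) := J24_act_BOK Lg π hl h hA S hS
      rw [← J38_leav_act h S U, ← J27_cap Lg π (act h S) hS' U hU]
      have hW' : W (act h S) ≠ [] := by
        intro h0
        have h1 := J22_act_length h S
        rw [h0] at h1
        have h3 : S.length = 0 := by simp at h1; omega
        exact hSne (List.length_eq_zero_iff.mp h3)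
      exact hcap _ (J20_orb Lg π hl h hA u (W S) _ huW (J23_act_conj Lg π h hA S hS))
        (J08_tight Lg π _ hS') hW' U
    set H : Set (Z N → FN N) := {h | Adm Lg π h ∧ (∀ α, (h α).norm ≤ 2 * Δ) ∧
      (∀ U : Finset (Z N), U.Nonempty → (∀ α ∈ U, α.1 ∉ Lg) →
        leav (strs S) (fun _ => 1) U = 0 → ∃ α ∈ U, h α = 1) ∧
      fS (strs S) h ≤ fS (strs S) (fun _ => 1) + Δ} with hHdef
    obtain ⟨hfin, hcard⟩ := se_list Lg π hl hne (strs S) (hstr_of Lg π S hS) hMin hNP (2 * Δ) Δ H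
      (fun h hh => hh)
    have hsub : {c : ConjClasses (FN N) | ∃ L, Tight L ∧ L.length = L0.length + Δ ∧
        Desc Lg π Δ L L0 ∧ c = ConjClasses.mk (FreeGroup.mk L)} ⊆
        (fun h => ConjClasses.mk (FreeGroup.mk (W (act h S)))) '' H := by
      rintro c ⟨L, hLt, hLl, ⟨h, hA, hT, hc⟩, rfl⟩
      have hc1 : IsConj (FreeGroup.mk L) (FreeGroup.mk (W (act h S))) :=
        (hc.trans (MonoidHom.map_isConj _ (J05_conj_rot L0 (W S) hrot))).trans
          (J23_act_conj Lg π h hA S hS).symm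
      have hS' : BOK Lg π (act h S) := J24_act_BOK Lg π hl h hA S hS
      have hlen2 := J12_len_eq L _ hLt (J08_tight Lg π _ hS') hc1
      have hlen3 := J22_act_length h S
      obtain ⟨h', hA', hT', hv, hnrm⟩ := J36_normalise Lg π hl Δ (strs S)
        (fun s hs => ⟨(hstr_of Lg π S hS s hs).1, (hstr_of Lg π S hS s hs).2.1,
          (hstr_of Lg π S hS s hs).2.2.1⟩) h hA hT
      obtain ⟨hact, hf⟩ := J39_act_congr h h' S hv
      refine ⟨h', ⟨hA', hT', hnrm, ?_⟩, ?_⟩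
      · rw [hf]; omega
      · simp only [hact]
        exact (ConjClasses.mk_eq_mk_iff_isConj.mpr hc1).symm
    refine ⟨(hfin.image _).subset hsub, ?_⟩
    calc _ ≤ ((fun h => ConjClasses.mk (FreeGroup.mk (W (act h S)))) '' H).ncard :=
          Set.ncard_le_ncard hsub (hfin.image _)
      _ ≤ H.ncard := Set.ncard_image_le hfin
      _ ≤ _ := hcard
      _ ≤ _ := bound_le N B Δ Lg.card (strs S).length (by
          obtain ⟨i, -⟩ := hne
          exact i.pos) (by
          rw [strs_length]; exact J34_k_le Lg π B S hS hGW)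
  · push Not at hsm
    have hsub : {c : ConjClasses (FN N) | ∃ L, Tight L ∧ L.length = L0.length + Δ ∧
        Desc Lg π Δ L L0 ∧ c = ConjClasses.mk (FreeGroup.mk L)} ⊆
        {ConjClasses.mk (FreeGroup.mk L0)} := by
      rintro c ⟨L, hLt, hLl, ⟨h, hA, hT, hc⟩, rfl⟩
      rw [J35_all_large Lg π h hA L0 hsm] at hc
      exact ConjClasses.mk_eq_mk_iff_isConj.mpr hc
    refine ⟨(Set.finite_singleton _).subset hsub, ?_⟩
    calc _ ≤ ({ConjClasses.mk (FreeGroup.mk L0)} : Set (ConjClasses (FN N))).ncard :=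
          Set.ncard_le_ncard hsub (Set.finite_singleton _)
      _ = 1 := Set.ncard_singleton _
      _ ≤ _ := by
          unfold slideBound
          have h1 : 1 ≤ 2 * Lg.card - 1 := by
            have := hne.card_pos
            omega
          exact Nat.one_le_iff_ne_zero.mpr (by positivity)

end PW
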