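import Pool.Agent.Helper423.PW.Defs
import Pool.Agent.Helper423.PW.P_J04_turns_rot

set_option autoImplicit false

namespace PW
variable {N : ℕ}


theorem J32_tn_rot (L L' : List (Z N)) (h : L ~r L') (A C : Finset (Z N)) :
    tn L A C = tn L' A C := by
  unfold tn
  exact (J04_turns_rot L L' h).countP_eq _

end PW
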